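import Pool.Agent.H10PR.Cd

/-!
# The ring of integers of the unramified cubic extension

Project PR (helper68), part TWOI (helper10): the statement `S_AO`, by helper33.
-/

set_option autoImplicit false
set_option linter.all false

open Polynomial

noncomputable section

namespace Pool.Agent.H10PR

/-! ### General facts on complete discrete valuation rings -/

namespace CD

variable {O : Type} [CommRing O] [IsDomain O] {π : O} {e : ℕ} (h : CD O π e)

include h

theorem sep {x : O} (hx : ∀ n, π ^ n ∣ x) : x = 0 := by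
  by_contra h0
  obtain ⟨n, y, hy, rfl⟩ := h.fac x h0
  have h1 := hx (n + 1)
  rw [pow_succ] at h1
  exact hy (dvd_of_mul_dvd_mul_left h1)
where
  dvd_of_mul_dvd_mul_left {n : ℕ} {y : O} (h1 : π ^ n * π ∣ π ^ n * y) : π ∣ y :=
    (mul_dvd_mul_iff_left (pow_ne_zero n h.pr.ne_zero)).1 h1

/-- Hensel's lemma for squares -/
theorem sq {α s : O} (hα : ¬ π ∣ α) (hs : π ^ (2 * e + 1) ∣ α - s ^ 2) : IsSquare α := by
  obtain ⟨u, hu, h2⟩ := h.two
  obtain ⟨β, hβ⟩ := hs
  have hs' : ¬ π ∣ s := by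
    intro h1
    apply hα
    have e1 : α = s ^ 2 + π ^ (2 * e + 1) * β := by rw [← hβ]; ring
    rw [e1]
    exact dvd_add (dvd_pow h1 (by norm_num)) ((dvd_pow_self π (by omega)).mul_right _)
  obtain ⟨s', hs1⟩ := (h.un s hs').exists_right_inv
  obtain ⟨u', hu1⟩ := (h.un u hu).exists_right_inv
  -- the iteration `z ↦ (π β u'^2 - z^2) s'`
  obtain ⟨z, z0, zs⟩ : ∃ z : ℕ → O, z 0 = 0 ∧
      ∀ n, z (n + 1) = (π * (β * u' ^ 2) - z n ^ 2) * s' :=
    ⟨fun n => Nat.rec 0 (fun _ y => (π * (β * u' ^ 2) - y ^ 2) * s') n, rfl, fun n => rfl⟩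
  have hz : ∀ n, π ∣ z n := by
    intro n
    induction n with
    | zero => rw [z0]; exact dvd_zero _
    | succ n ih =>
      rw [zs]
      exact (dvd_sub (dvd_mul_right _ _) (dvd_pow ih (by norm_num))).mul_right _
  have hd : ∀ n, π ^ n ∣ z (n + 1) - z n := by
    intro n
    induction n with
    | zero => rw [pow_zero]; exact one_dvd _
    | succ n ih =>
      have e1 : z (n + 1 + 1) - z (n + 1) = (z (n + 1) - z n) * (z (n + 1) + z n) * (- s') := by
        rw [zs (n + 1), zs n]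
        ring
      rw [e1, pow_succ]
      exact (mul_dvd_mul ih (dvd_add (hz (n + 1)) (hz n))).mul_right _
  obtain ⟨t, ht⟩ := h.cpl z hd
  have h0 : t ^ 2 + s * t - π * (β * u' ^ 2) = 0 := by
    apply h.sep
    intro n
    have e1 : t ^ 2 + s * t - π * (β * u' ^ 2) = (t - z n) * (t + z n + s) - s * (z (n + 1) - z n) := by
      have e2 : s * z (n + 1) = π * (β * u' ^ 2) - z n ^ 2 := by
        rw [zs]
        linear_combination (π * (β * u' ^ 2) - z n ^ 2) * hs1
      linear_combination e2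
    rw [e1]
    exact dvd_sub ((ht n).mul_right _) ((hd n).mul_left _)
  refine ⟨s + 2 * t, ?_⟩
  have e3 : α = s ^ 2 + π ^ (2 * e + 1) * β := by rw [← hβ]; ring
  have e4 : (4 : O) = π ^ (2 * e) * u ^ 2 := by
    have : (4 : O) = 2 * 2 := by norm_num
    rw [this, h2]; ring
  have e5 : (s + 2 * t) * (s + 2 * t) = s ^ 2 + 4 * (t ^ 2 + s * t) := by ring
  have e6 : t ^ 2 + s * t = π * (β * u' ^ 2) := by linear_combination h0
  rw [e3, e5, e6, e4, pow_succ]
  linear_combination (-(π ^ (2 * e) * π * β) * (u * u' + 1)) * hu1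

/-- the inverse of `1 + π z` -/
theorem one_add (z : O) : IsUnit (1 + π * z) := by
  obtain ⟨s, s0, ss⟩ : ∃ s : ℕ → O, s 0 = 0 ∧ ∀ n, s (n + 1) = s n + (-(π * z)) ^ n :=
    ⟨fun n => Nat.rec 0 (fun n y => y + (-(π * z)) ^ n) n, rfl, fun n => rfl⟩
  exact h.un _ (fun h1 => h.pr.not_unit (isUnit_of_dvd_one
    ((dvd_add_left (dvd_mul_right π z)).1 h1)))

end CD

/-! ### The ring `A` -/

section

variable {O : Type} [CommRing O] [IsDomain O] (a b : O)

/-- the cubic polynomial -/
abbrev cu : O[X] := X ^ 3 + C a * X + C b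

theorem cu_eq : cu a b = (⟨1, 0, a, b⟩ : Cubic O).toPoly := by
  simp [Cubic.toPoly]

theorem cu_monic : (cu a b).Monic := by
  rw [cu_eq]
  exact Cubic.monic_of_a_eq_one rfl

theorem cu_deg : (cu a b).natDegree = 3 := by
  rw [cu_eq]
  exact Cubic.natDegree_of_a_ne_zero one_ne_zero

/-- the basis `1, r, r ^ 2` of `A` -/
def bA : Module.Basis (Fin 3) O (AdjoinRoot (cu a b)) :=
  (AdjoinRoot.powerBasis' (cu_monic a b)).basis.reindex (finCongr (cu_deg a b))

theorem bA_apply (i : Fin 3) : bA a b i = AdjoinRoot.root (cu a b) ^ (i : ℕ) := by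
  rw [bA, Module.Basis.reindex_apply, PowerBasis.coe_basis]
  rfl

variable {a b}

/-- the coordinates of a multiple -/
theorem dvd_coord {c : O} {x : AdjoinRoot (cu a b)} :
    algebraMap O (AdjoinRoot (cu a b)) c ∣ x ↔ ∀ i, c ∣ (bA a b).repr x i := by
  constructor
  · rintro ⟨y, rfl⟩ i
    rw [← Algebra.smul_def, map_smul, Finsupp.smul_apply, smul_eq_mul]
    exact dvd_mul_right _ _
  · intro h
    choose d hd using h
    refine ⟨∑ i, d i • bA a b i, ?_⟩
    rw [← Algebra.smul_def, Finset.smul_sum]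
    conv_lhs => rw [← (bA a b).sum_repr x]
    refine Finset.sum_congr rfl fun i _ => ?_
    rw [hd i, mul_smul]

theorem coord_one (c : O) (i : Fin 3) :
    (bA a b).repr (algebraMap O (AdjoinRoot (cu a b)) c) i = if i = 0 then c else 0 := by
  have h1 : algebraMap O (AdjoinRoot (cu a b)) c = c • bA a b 0 := by
    rw [bA_apply, Fin.val_zero, pow_zero, Algebra.smul_def, mul_one]
  rw [h1, map_smul, Finsupp.smul_apply, Module.Basis.repr_self, Finsupp.single_apply, smul_eq_mul,
    mul_ite, mul_one, mul_zero]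
  simp [eq_comm]

theorem dvd_alg {c d : O} :
    algebraMap O (AdjoinRoot (cu a b)) c ∣ algebraMap O (AdjoinRoot (cu a b)) d ↔ c ∣ d := by
  constructor
  · intro h
    have := dvd_coord.1 h 0
    rwa [coord_one, if_pos rfl] at this
  · exact fun h => map_dvd _ h

/-! ### The map to `M` -/

variable {K M : Type} [Field K] [Algebra O K] [IsFractionRing O K] [Field M] [Algebra K M] {θ : M}

variable (h : Cub (algebraMap O K a) (algebraMap O K b) θ)

/-- the map to `M` -/
def jA : AdjoinRoot (cu a b) →+* M :=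
  AdjoinRoot.lift ((algebraMap K M).comp (algebraMap O K)) θ (by
    rw [eval₂_add, eval₂_add, eval₂_mul, eval₂_C, eval₂_C, eval₂_X_pow, eval₂_X]
    exact h.eq)

theorem jA_alg (c : O) : jA h (algebraMap O _ c) = algebraMap K M (algebraMap O K c) := by
  rw [AdjoinRoot.algebraMap_eq]
  exact AdjoinRoot.lift_of _

theorem jA_root : jA h (AdjoinRoot.root (cu a b)) = θ := AdjoinRoot.lift_root _

theorem jA_eq (x : AdjoinRoot (cu a b)) :
    jA h x = ∑ i : Fin 3, algebraMap K M (algebraMap O K ((bA a b).repr x i)) * θ ^ (i : ℕ) := by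
  conv_lhs => rw [← (bA a b).sum_repr x]
  rw [map_sum]
  refine Finset.sum_congr rfl fun i _ => ?_
  rw [Algebra.smul_def, map_mul, jA_alg, bA_apply, map_pow, jA_root]

theorem jA_inj : Function.Injective (jA h) := by
  rw [injective_iff_map_eq_zero]
  intro x hx
  rw [jA_eq, Fin.sum_univ_three] at hx
  have h1 := h.li (algebraMap O K ((bA a b).repr x 0)) (algebraMap O K ((bA a b).repr x 1))
    (algebraMap O K ((bA a b).repr x 2)) (by
    rw [← hx]
    simp only [Fin.val_zero, Fin.val_one, Fin.val_two, pow_zero, pow_one, mul_one])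
  apply (bA a b).ext_elem
  intro i
  rw [map_zero, Finsupp.zero_apply]
  apply IsFractionRing.injective O K
  rw [map_zero]
  fin_cases i
  · exact h1.1
  · exact h1.2.1
  · exact h1.2.2

/-- the basis of `M` -/
def bM : Module.Basis (Fin 3) K M :=
  Module.Basis.mk (v := fun i : Fin 3 => θ ^ (i : ℕ)) (by
    rw [Fintype.linearIndependent_iff]
    intro g hg
    rw [Fin.sum_univ_three] at hg
    have h1 := h.li (g 0) (g 1) (g 2) (by
      rw [← hg]
      simp only [Algebra.smul_def, Fin.val_zero, Fin.val_one, Fin.val_two, pow_zero, pow_one,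
        mul_one])
    intro i
    fin_cases i
    · exact h1.1
    · exact h1.2.1
    · exact h1.2.2) (by
    intro z _
    obtain ⟨c₀, c₁, c₂, hz⟩ := h.sp z
    have e1 : z = ∑ i : Fin 3, (![c₀, c₁, c₂] : Fin 3 → K) i • θ ^ (i : ℕ) := by
      rw [Fin.sum_univ_three, hz]
      simp only [Algebra.smul_def, Fin.val_zero, Fin.val_one, Fin.val_two, pow_zero, pow_one,
        mul_one]
      rfl
    rw [e1]
    exact Submodule.sum_mem _ fun i _ => Submodule.smul_mem _ _
      (Submodule.subset_span ⟨i, rfl⟩))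

theorem bM_apply (i : Fin 3) : bM h i = θ ^ (i : ℕ) := Module.Basis.mk_apply _ _ i

theorem bM_j (i : Fin 3) : bM h i = jA h (bA a b i) := by
  rw [bM_apply, bA_apply, map_pow, jA_root]

theorem norm_j (x : AdjoinRoot (cu a b)) :
    Algebra.norm K (jA h x) = algebraMap O K (Algebra.norm O x) := by
  rw [Algebra.norm_eq_matrix_det (bM h), Algebra.norm_eq_matrix_det (bA a b), RingHom.map_det]
  congr 1
  ext i k
  rw [Algebra.leftMulMatrix_eq_repr_mul, RingHom.mapMatrix_apply, Matrix.map_apply,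
    Algebra.leftMulMatrix_eq_repr_mul, bM_j, ← map_mul, jA_eq]
  have e1 : ∑ l : Fin 3, algebraMap K M (algebraMap O K ((bA a b).repr (x * bA a b k) l)) *
      θ ^ (l : ℕ) = ∑ l : Fin 3, algebraMap O K ((bA a b).repr (x * bA a b k) l) • bM h l := by
    refine Finset.sum_congr rfl fun l _ => ?_
    rw [Algebra.smul_def, bM_apply]
  rw [e1, Module.Basis.repr_sum_self]

end

/-! ### `A` is a complete discrete valuation ring -/

section

variable {O : Type} [CommRing O] [IsDomain O] {π : O} {e : ℕ} {a b : O}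

theorem CD.maxl (h : CD O π e) : (Ideal.span {π}).IsMaximal := by
  haveI := h.fin
  haveI : (Ideal.span {π}).IsPrime := (Ideal.span_singleton_prime h.pr.ne_zero).2 h.pr
  exact Ideal.Quotient.maximal_of_isField _ (Finite.isField_of_domain _)

/-- the residue ring of `A` -/
def qA (π a b : O) : (AdjoinRoot (cu a b) ⧸ Ideal.span {algebraMap O (AdjoinRoot (cu a b)) π}) ≃+*
    AdjoinRoot ((cu a b).map (Ideal.Quotient.mk (Ideal.span {π}))) :=
  (Ideal.quotEquivOfEq (by
    rw [AdjoinRoot.algebraMap_eq, Ideal.map_span, Set.image_singleton])).trans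
      (AdjoinRoot.quotAdjoinRootEquivQuotPolynomialQuot (Ideal.span {π}) (cu a b))

theorem cu_map_deg [Nontrivial (O ⧸ Ideal.span {π})] :
    ((cu a b).map (Ideal.Quotient.mk (Ideal.span {π}))).natDegree = 3 := by
  rw [(cu_monic a b).natDegree_map, cu_deg]

theorem qA_card (h : CD O π e) (hi : Irreducible ((cu a b).map (Ideal.Quotient.mk (Ideal.span {π})))) :
    (Ideal.span {algebraMap O (AdjoinRoot (cu a b)) π}).IsMaximal ∧
    Finite (AdjoinRoot (cu a b) ⧸ Ideal.span {algebraMap O (AdjoinRoot (cu a b)) π}) ∧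
    Nat.card (AdjoinRoot (cu a b) ⧸ Ideal.span {algebraMap O (AdjoinRoot (cu a b)) π}) =
      Nat.card (O ⧸ Ideal.span {π}) ^ 3 := by
  haveI := h.maxl
  haveI := h.fin
  letI : Field (O ⧸ Ideal.span {π}) := Ideal.Quotient.field _
  haveI : Fact (Irreducible ((cu a b).map (Ideal.Quotient.mk (Ideal.span {π})))) := ⟨hi⟩
  have h1 : IsField (AdjoinRoot ((cu a b).map (Ideal.Quotient.mk (Ideal.span {π})))) :=
    Field.toIsField _
  have hm := (cu_monic a b).map (Ideal.Quotient.mk (Ideal.span {π}))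
  haveI : Module.Finite (O ⧸ Ideal.span {π})
    (AdjoinRoot ((cu a b).map (Ideal.Quotient.mk (Ideal.span {π})))) :=
      (AdjoinRoot.powerBasis' hm).finite
  have h2 : Finite (AdjoinRoot ((cu a b).map (Ideal.Quotient.mk (Ideal.span {π})))) :=
    Module.finite_of_finite (O ⧸ Ideal.span {π})
  refine ⟨?_, ?_, ?_⟩
  · exact Ideal.Quotient.maximal_of_isField _ ((qA π a b).toMulEquiv.isField h1)
  · exact Finite.of_equiv _ (qA π a b).symm.toEquiv
  · rw [Nat.card_congr (qA π a b).toEquiv,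
      Module.natCard_eq_pow_finrank (K := O ⧸ Ideal.span {π}), (AdjoinRoot.powerBasis' hm).finrank]
    congr 1
    exact cu_map_deg

theorem cd_A [IsDomain (AdjoinRoot (cu a b))] (h : CD O π e)
    (hi : Irreducible ((cu a b).map (Ideal.Quotient.mk (Ideal.span {π})))) :
    CD (AdjoinRoot (cu a b)) (algebraMap O (AdjoinRoot (cu a b)) π) e := by
  obtain ⟨hm, hf, -⟩ := qA_card (a := a) (b := b) h hi
  set p := algebraMap O (AdjoinRoot (cu a b)) π with hp
  have hp0 : p ≠ 0 := by
    intro h0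
    have h1 : p ∣ algebraMap O (AdjoinRoot (cu a b)) 0 := by rw [map_zero]; exact dvd_zero _
    have h2 : algebraMap O (AdjoinRoot (cu a b)) 0 ∣ p := by rw [map_zero, h0]
    exact h.pr.ne_zero (zero_dvd_iff.1 (dvd_alg.1 h2))
  have hpr : Prime p := (Ideal.span_singleton_prime hp0).1 hm.isPrime
  have hsep : ∀ x : AdjoinRoot (cu a b), (∀ n, p ^ n ∣ x) → x = 0 := by
    intro x hx
    apply (bA a b).ext_elem
    intro i
    rw [map_zero, Finsupp.zero_apply]
    apply h.sep
    intro n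
    have h1 := hx n
    rw [hp, ← map_pow] at h1
    exact dvd_coord.1 h1 i
  have hcpl : ∀ s : ℕ → AdjoinRoot (cu a b), (∀ n, p ^ n ∣ s (n + 1) - s n) →
      ∃ t, ∀ n, p ^ n ∣ t - s n := by
    intro s hs
    have h1 : ∀ i : Fin 3, ∃ t, ∀ n, π ^ n ∣ t - (bA a b).repr (s n) i := by
      intro i
      apply h.cpl
      intro n
      have h1 := hs n
      rw [hp, ← map_pow] at h1
      have h2 := dvd_coord.1 h1 i
      rwa [map_sub, Finsupp.sub_apply] at h2
    choose t ht using h1
    refine ⟨∑ i, t i • bA a b i, fun n => ?_⟩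
    rw [hp, ← map_pow, dvd_coord]
    intro i
    rw [map_sub, Finsupp.sub_apply, Module.Basis.repr_sum_self]
    exact ht i n
  have hone : ∀ z, IsUnit (1 + p * z) := by
    intro z
    obtain ⟨s, s0, ss⟩ : ∃ s : ℕ → AdjoinRoot (cu a b), s 0 = 0 ∧
        ∀ n, s (n + 1) = s n + (-(p * z)) ^ n :=
      ⟨fun n => Nat.rec 0 (fun n y => y + (-(p * z)) ^ n) n, rfl, fun n => rfl⟩
    have hd : ∀ n, p ^ n ∣ s (n + 1) - s n := by
      intro n
      rw [ss, add_sub_cancel_left, neg_pow, mul_pow]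
      exact (dvd_mul_right _ _).mul_left _
    obtain ⟨t, ht⟩ := hcpl s hd
    have h1 : ∀ n, (1 + p * z) * s n = 1 - (-(p * z)) ^ n := by
      intro n
      induction n with
      | zero => rw [s0, pow_zero, mul_zero, sub_self]
      | succ n ih => rw [ss, mul_add, ih, pow_succ]; ring
    refine IsUnit.of_mul_eq_one t ?_
    rw [← sub_eq_zero]
    apply hsep
    intro n
    have h2 : (1 + p * z) * t - 1 = (1 + p * z) * (t - s n) - (-(p * z)) ^ n := by
      rw [mul_sub, h1]; ring
    rw [h2]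
    refine dvd_sub ((ht n).mul_left _) ?_
    rw [neg_pow, mul_pow]
    exact (dvd_mul_right _ _).mul_left _
  refine ⟨hpr, ?_, ?_, hf, hcpl, h.he, ?_⟩
  · intro x hx
    have h1 : FiniteMultiplicity p x := by
      by_contra h2
      rw [FiniteMultiplicity.not_iff_forall] at h2
      exact hx (hsep x h2)
    obtain ⟨c, hc, hc'⟩ := h1.exists_eq_pow_mul_and_not_dvd
    exact ⟨_, c, hc', hc⟩
  · intro x hx
    letI := Ideal.Quotient.field (Ideal.span {p})
    have h1 : Ideal.Quotient.mk (Ideal.span {p}) x ≠ 0 := by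
      rw [Ne, Ideal.Quotient.eq_zero_iff_mem, Ideal.mem_span_singleton]
      exact hx
    obtain ⟨y, hy⟩ := Ideal.Quotient.mk_surjective (Ideal.Quotient.mk (Ideal.span {p}) x)⁻¹
    have h2 : Ideal.Quotient.mk (Ideal.span {p}) (x * y) = Ideal.Quotient.mk (Ideal.span {p}) 1 := by
      rw [map_mul, hy, mul_inv_cancel₀ h1, map_one]
    rw [Ideal.Quotient.eq, Ideal.mem_span_singleton] at h2
    obtain ⟨z, hz⟩ := h2
    have h3 : x * y = 1 + p * z := by rw [← hz]; ring
    have h4 := hone z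
    rw [← h3] at h4
    exact isUnit_of_mul_isUnit_left h4
  · obtain ⟨u, hu, h2⟩ := h.two
    refine ⟨algebraMap O _ u, fun h1 => hu (dvd_alg.1 h1), ?_⟩
    rw [hp, ← map_pow, ← map_mul, ← h2, map_ofNat]

/-- parity of the valuation of a square -/
theorem CD.par (h : CD O π e) {K : Type} [Field K] [Algebra O K] [IsFractionRing O K]
    {v : O} (hv : ¬ π ∣ v) {m n : ℕ} (hs : IsSquare ((algebraMap O K π) ^ m * algebraMap O K v /
      (algebraMap O K π) ^ n)) : (m + n) % 2 = 0 := by
  obtain ⟨y, hy⟩ := hs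
  have hπ : algebraMap O K π ≠ 0 := by
    rw [Ne, IsFractionRing.to_map_eq_zero_iff]
    exact h.pr.ne_zero
  obtain ⟨c, d, hd, rfl⟩ := IsFractionRing.div_surjective (A := O) y
  have hd0 : d ≠ 0 := nonZeroDivisors.ne_zero hd
  have hv0 : v ≠ 0 := by rintro rfl; exact hv (dvd_zero _)
  have hdK : algebraMap O K d ≠ 0 := by rwa [Ne, IsFractionRing.to_map_eq_zero_iff]
  have hvK : algebraMap O K v ≠ 0 := by rwa [Ne, IsFractionRing.to_map_eq_zero_iff]
  have h1 : π ^ m * v * d ^ 2 = π ^ n * c ^ 2 := by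
    apply IsFractionRing.injective O K
    rw [map_mul, map_mul, map_mul, map_pow, map_pow, map_pow, map_pow]
    field_simp at hy
    linear_combination hy
  have hc0 : c ≠ 0 := by
    rintro rfl
    have h2 : π ^ m * v * d ^ 2 = 0 := by rw [h1]; ring
    exact mul_ne_zero (mul_ne_zero (pow_ne_zero _ h.pr.ne_zero) hv0) (pow_ne_zero 2 hd0) h2
  obtain ⟨i, c', hc', rfl⟩ := h.fac c hc0
  obtain ⟨k, d', hd', rfl⟩ := h.fac d hd0
  have h2 : π ^ (m + 2 * k) * (v * d' ^ 2) = π ^ (n + 2 * i) * c' ^ 2 := by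
    have e1 : π ^ (m + 2 * k) * (v * d' ^ 2) = π ^ m * v * (π ^ k * d') ^ 2 := by ring
    rw [e1, h1]; ring
  have h3 : ¬ π ∣ v * d' ^ 2 := by
    intro h4
    rcases h.pr.dvd_or_dvd h4 with h5 | h5
    · exact hv h5
    · exact hd' (h.pr.dvd_of_dvd_pow h5)
  have h4 : ¬ π ∣ c' ^ 2 := fun h5 => hc' (h.pr.dvd_of_dvd_pow h5)
  have h5 : m + 2 * k = n + 2 * i := by
    rcases lt_trichotomy (m + 2 * k) (n + 2 * i) with hl | hl | hl
    · exfalso
      obtain ⟨r, hr⟩ := Nat.exists_eq_add_of_lt hl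
      apply h3
      have e2 : π ^ (m + 2 * k) * (v * d' ^ 2) = π ^ (m + 2 * k) * (π * (π ^ r * c' ^ 2)) := by
        rw [h2, hr]; ring
      rw [mul_left_cancel₀ (pow_ne_zero _ h.pr.ne_zero) e2]
      exact dvd_mul_right _ _
    · exact hl
    · exfalso
      obtain ⟨r, hr⟩ := Nat.exists_eq_add_of_lt hl
      apply h4
      have e2 : π ^ (n + 2 * i) * (c' ^ 2) = π ^ (n + 2 * i) * (π * (π ^ r * (v * d' ^ 2))) := by
        rw [← h2, hr]; ring
      rw [mul_left_cancel₀ (pow_ne_zero _ h.pr.ne_zero) e2]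
      exact dvd_mul_right _ _
  omega

end

theorem ao : S_AO := by
  classical
  intro O K M _ _ _ _ _ _ _ π e h a b hi θ hc
  haveI hdom : IsDomain (AdjoinRoot (cu a b)) := (jA_inj hc).isDomain
  have hA : CD (AdjoinRoot (cu a b)) (algebraMap O (AdjoinRoot (cu a b)) π) e := cd_A h hi
  obtain ⟨hm, hf, hcard⟩ := qA_card (a := a) (b := b) h hi
  refine ⟨AdjoinRoot (cu a b), inferInstance, hdom, jA hc, algebraMap O _ π, jA_inj hc, hA.pr, hf,
    hcard, hA.two, fun α s => hA.sq, ?_, ?_⟩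
  · intro c hc0
    exact ⟨algebraMap O _ c, fun h1 => hc0 (dvd_alg.1 h1), jA_alg hc c⟩
  · intro x hx hs
    -- clear denominators
    obtain ⟨c₀, c₁, c₂, hz⟩ := hc.sp x
    obtain ⟨d, hd⟩ := IsLocalization.exist_integer_multiples_of_finset (nonZeroDivisors O)
      ({c₀, c₁, c₂} : Finset K)
    have hd0 : (d : O) ≠ 0 := nonZeroDivisors.ne_zero d.2
    obtain ⟨n₀, hn₀⟩ := hd c₀ (by simp)
    obtain ⟨n₁, hn₁⟩ := hd c₁ (by simp)
    obtain ⟨n₂, hn₂⟩ := hd c₂ (by simp)
    rw [Algebra.smul_def] at hn₀ hn₁ hn₂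
    set r := AdjoinRoot.root (cu a b)
    set y : AdjoinRoot (cu a b) := algebraMap O _ n₀ + algebraMap O _ n₁ * r + algebraMap O _ n₂ * r ^ 2
      with hy
    have hjy : jA hc y = algebraMap K M (algebraMap O K d) * x := by
      rw [hy, map_add, map_add, map_mul, map_mul, map_pow, jA_alg, jA_alg, jA_alg, jA_root, hn₀, hn₁,
        hn₂, hz, map_mul, map_mul, map_mul]
      ring
    have hdM : algebraMap K M (algebraMap O K d) ≠ 0 := by
      rw [Ne, map_eq_zero, IsFractionRing.to_map_eq_zero_iff]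
      exact hd0
    have hy0 : y ≠ 0 := by
      intro h0
      rw [h0, map_zero] at hjy
      exact mul_ne_zero hdM hx hjy.symm
    obtain ⟨n, α, hα, hyα⟩ := hA.fac y hy0
    obtain ⟨m, d', hd', hdd⟩ := h.fac d hd0
    obtain ⟨d'', hdi⟩ := (h.un d' hd').exists_right_inv
    set β := α * algebraMap O (AdjoinRoot (cu a b)) d'' with hβ
    have hβ0 : ¬ algebraMap O (AdjoinRoot (cu a b)) π ∣ β := by
      intro h1
      rcases hA.pr.dvd_or_dvd h1 with h2 | h2
      · exact hα h2
      · exact h.pr.not_unit (isUnit_of_dvd_one (hdi ▸ (dvd_alg.1 h2).mul_left d'))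
    set P := algebraMap K M (algebraMap O K π) with hP
    have hP0 : P ≠ 0 := by
      rw [hP, Ne, map_eq_zero, IsFractionRing.to_map_eq_zero_iff]
      exact h.pr.ne_zero
    have hx1 : x = P ^ n * jA hc β / P ^ m := by
      rw [eq_div_iff (pow_ne_zero _ hP0)]
      have e1 : algebraMap K M (algebraMap O K d') * algebraMap K M (algebraMap O K d'') = 1 := by
        rw [← map_mul, ← map_mul, hdi, map_one, map_one]
      have e2 : jA hc y = P ^ n * jA hc α := by
        rw [hyα, map_mul, map_pow, jA_alg]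
      have e3 : algebraMap K M (algebraMap O K d) = P ^ m * algebraMap K M (algebraMap O K d') := by
        rw [hdd, map_mul, map_mul, map_pow, map_pow]
      rw [hβ, map_mul, jA_alg, ← mul_assoc, ← e2, hjy, e3]
      linear_combination (-(P ^ m * x)) * e1
    -- the norm
    have hβu : IsUnit β := hA.un β hβ0
    have hNu : ¬ π ∣ Algebra.norm O β := by
      intro h1
      exact h.pr.not_unit (isUnit_of_dvd_unit h1 (hβu.map _))
    have hN : Algebra.norm K x = (algebraMap O K π) ^ (3 * n) * algebraMap O K (Algebra.norm O β) /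
        (algebraMap O K π) ^ (3 * m) := by
      have hfr : Module.finrank K M = 3 := by
        rw [Module.finrank_eq_card_basis (bM hc), Fintype.card_fin]
      have e1 : ∀ i : ℕ, Algebra.norm K (P ^ i) = (algebraMap O K π) ^ (3 * i) := by
        intro i
        rw [hP, ← map_pow, Algebra.norm_algebraMap, hfr, ← pow_mul, mul_comm]
      have hπK : algebraMap O K π ≠ 0 := by
        rw [Ne, IsFractionRing.to_map_eq_zero_iff]
        exact h.pr.ne_zero
      rw [eq_div_iff (pow_ne_zero _ hπK), ← e1 m, ← map_mul, ← e1 n, ← norm_j hc, ← map_mul]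
      congr 1
      rw [hx1, div_mul_cancel₀ _ (pow_ne_zero _ hP0)]
    rw [hN] at hs
    have hpar := h.par hNu hs
    have hpar2 : (n + m) % 2 = 0 := by omega
    rcases le_total m n with hmn | hmn
    · obtain ⟨k, hk⟩ : ∃ k, n = m + 2 * k := ⟨(n - m) / 2, by omega⟩
      refine ⟨P ^ k, β, pow_ne_zero _ hP0, hβ0, ?_⟩
      rw [hx1, div_eq_iff (pow_ne_zero _ hP0), hk]
      ring
    · obtain ⟨k, hk⟩ : ∃ k, m = n + 2 * k := ⟨(m - n) / 2, by omega⟩
      refine ⟨(P ^ k)⁻¹, β, inv_ne_zero (pow_ne_zero _ hP0), hβ0, ?_⟩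
      rw [hx1, div_eq_iff (pow_ne_zero _ hP0), hk]
      field_simp
      ring

end Pool.Agent.H10PR
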