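import Pool.Agent.H10PR.Filt
import Pool.Agent.H10PR.AO

/-!
# The local bound

Project PR (helper68), part TWOI, by helper10.
-/

set_option autoImplicit false
set_option linter.all false

open Polynomial
open scoped Classical

noncomputable section

namespace Pool.Agent.H10PR

section norm

variable {O K M : Type} [CommRing O] [IsDomain O] [Field K] [Algebra O K] [IsFractionRing O K]
  [Field M] [Algebra K M] {a b : O} {θ : M} (hθ : Cub (algebraMap O K a) (algebraMap O K b) θ)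

include hθ

theorem bM_sum (c : Fin 3 → K) : ∑ i, c i • bM hθ i =
    algebraMap K M (c 0) + algebraMap K M (c 1) * θ + algebraMap K M (c 2) * θ ^ 2 := by
  rw [Fin.sum_univ_three, bM_apply, bM_apply, bM_apply]
  simp only [Algebra.smul_def, Fin.val_zero, Fin.val_one, Fin.val_two, pow_zero, pow_one, mul_one]

theorem bM_repr (c₀ c₁ c₂ : K) (i : Fin 3) :
    (bM hθ).repr (algebraMap K M c₀ + algebraMap K M c₁ * θ + algebraMap K M c₂ * θ ^ 2) i =
      (![c₀, c₁, c₂] : Fin 3 → K) i := by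
  have h1 := bM_sum hθ (![c₀, c₁, c₂] : Fin 3 → K)
  have h2 : algebraMap K M c₀ + algebraMap K M c₁ * θ + algebraMap K M c₂ * θ ^ 2 =
      ∑ i, (![c₀, c₁, c₂] : Fin 3 → K) i • bM hθ i := by rw [h1]; rfl
  rw [h2, Module.Basis.repr_sum_self]

theorem norm_lin (x : K) : Algebra.norm K (algebraMap K M x - θ) =
    x ^ 3 + algebraMap O K a * x + algebraMap O K b := by
  have e0 : (algebraMap K M x - θ) * bM hθ 0 =
      algebraMap K M x + algebraMap K M (-1) * θ + algebraMap K M 0 * θ ^ 2 := by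
    rw [bM_apply]
    simp only [Fin.val_zero, pow_zero, map_neg, map_one, map_zero]
    ring
  have e1 : (algebraMap K M x - θ) * bM hθ 1 =
      algebraMap K M 0 + algebraMap K M x * θ + algebraMap K M (-1) * θ ^ 2 := by
    rw [bM_apply]
    simp only [Fin.val_one, pow_one, map_neg, map_one, map_zero]
    ring
  have e2 : (algebraMap K M x - θ) * bM hθ 2 =
      algebraMap K M (algebraMap O K b) + algebraMap K M (algebraMap O K a) * θ +
        algebraMap K M x * θ ^ 2 := by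
    rw [bM_apply]
    simp only [Fin.val_two]
    linear_combination -hθ.eq
  rw [Algebra.norm_eq_matrix_det (bM hθ), Matrix.det_fin_three]
  simp only [Algebra.leftMulMatrix_eq_repr_mul, e0, e1, e2, bM_repr]
  simp only [Matrix.cons_val_zero, Matrix.cons_val_one, Matrix.cons_val_two, Matrix.head_cons,
    Matrix.tail_cons, Matrix.cons_val]
  ring

theorem norm_dl (P : G (algebraMap O K a) (algebraMap O K b)) :
    IsSquare (Algebra.norm K (dl θ P)) := by
  by_cases h0 : P = 0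
  · rw [h0, dl_zero, map_one]
    exact ⟨1, by ring⟩
  · obtain ⟨x, y, hx⟩ := exists_at h0
    rw [dl_at hx, norm_lin hθ, ← hx.eq]
    exact ⟨y, by ring⟩

theorem finrank3 : Module.finrank K M = 3 := by
  rw [Module.finrank_eq_card_basis (bM hθ), Fintype.card_fin]

end norm

theorem dl_neg {K M : Type} [Field K] [Field M] [Algebra K M] {a b : K} (θ : M) (P : G a b) :
    dl θ (-P) = dl θ P := by
  by_cases h0 : P = 0
  · rw [h0, neg_zero]
  · obtain ⟨x, y, hx⟩ := exists_at h0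
    rw [dl_at hx, dl_at hx.neg]

theorem bound (hAO : S_AO) {O K M : Type} [CommRing O] [IsDomain O] [Field K] [Algebra O K]
    [IsFractionRing O K] [Field M] [Algebra K M] {π : O} {e : ℕ} (h : CD O π e) {a b : O}
    (hi : Irreducible ((X ^ 3 + C a * X + C b : O[X]).map (Ideal.Quotient.mk (Ideal.span {π}))))
    (hf : ∀ c : O, ¬ π ∣ c ^ 3 + a * c + b)
    {θ : M} (hθ : Cub (algebraMap O K a) (algebraMap O K b) θ) {ι : Type} (S : Finset ι)
    (φ : ι → M) (hφ : ∀ i ∈ S, φ i ≠ 0 ∧ IsSquare (Algebra.norm K (φ i)))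
    (hS : ∀ i ∈ S, ∀ j ∈ S, (∃ P : G (algebraMap O K a) (algebraMap O K b),
      IsSquare (φ i * φ j * dl θ P)) → i = j) :
    S.card ≤ Nat.card (O ⧸ Ideal.span {π}) ^ e := by
  obtain ⟨A, iA, iD, j, p, hj, hp, hfin, hcard, ⟨u, hu, h2⟩, hsq, hc, hx⟩ :=
    hAO O K M π e h a b hi θ hθ
  obtain ⟨T, hT, hT'⟩ := h.many (K := K) hf
  obtain ⟨uO, huO, h2O⟩ := h.two
  haveI := h.fin
  haveI : Module.Finite K M := Module.Finite.of_basis (bM hθ)
  obtain ⟨U, hU, hU', hU''⟩ := ring_lo h.pr h2O huO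
  have hq : 0 < Nat.card (O ⧸ Ideal.span {π}) := by
    haveI : Nonempty (O ⧸ Ideal.span {π}) := ⟨0⟩
    exact Nat.card_pos
  -- the representatives
  have hex : ∀ (i : ι) (P : G (algebraMap O K a) (algebraMap O K b)) (c : O), i ∈ S → c ∈ U →
      ∃ (t : M) (α : A), t ≠ 0 ∧ ¬ p ∣ α ∧
        φ i * dl θ P * algebraMap K M (algebraMap O K c) = t ^ 2 * j α := by
    intro i P c hiS hcU
    obtain ⟨t, α, ht, hα, he⟩ := hx (φ i * dl θ P) (mul_ne_zero (hφ i hiS).1 (hθ.dl_ne P)) (by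
      rw [map_mul]
      exact (hφ i hiS).2.mul (norm_dl hθ P))
    obtain ⟨γ, hγ, hγ'⟩ := hc c (hU' c hcU)
    refine ⟨t, α * γ, ht, fun h => (hp.dvd_or_dvd h).elim hα hγ, ?_⟩
    rw [he, map_mul, hγ']
    ring
  let ψ : ι × G (algebraMap O K a) (algebraMap O K b) × O → A := fun z =>
    if hz : z.1 ∈ S ∧ z.2.2 ∈ U then (hex z.1 z.2.1 z.2.2 hz.1 hz.2).choose_spec.choose else 0
  have hψ : ∀ z ∈ S ×ˢ T ×ˢ U, ∃ t : M, t ≠ 0 ∧ ¬ p ∣ ψ z ∧
      φ z.1 * dl θ z.2.1 * algebraMap K M (algebraMap O K z.2.2) = t ^ 2 * j (ψ z) := by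
    intro z hz
    rw [Finset.mem_product, Finset.mem_product] at hz
    have hz' : z.1 ∈ S ∧ z.2.2 ∈ U := ⟨hz.1, hz.2.2⟩
    have h1 := (hex z.1 z.2.1 z.2.2 hz'.1 hz'.2).choose_spec.choose_spec
    have h2 : ψ z = (hex z.1 z.2.1 z.2.2 hz'.1 hz'.2).choose_spec.choose := dif_pos hz'
    rw [h2]
    exact ⟨_, h1⟩
  haveI := hfin
  have hup := ring_up hp h2 hu (S ×ˢ T ×ˢ U) ψ (fun z hz => (hψ z hz).choose_spec.2.1) ?_
  · rw [Finset.card_product, Finset.card_product, hU, hcard] at hup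
    have h3 : S.card * (Nat.card (O ⧸ Ideal.span {π}) ^ e * (2 * Nat.card (O ⧸ Ideal.span {π}) ^ e)) ≤
        2 * (Nat.card (O ⧸ Ideal.span {π}) ^ 3) ^ e :=
      le_trans (Nat.mul_le_mul le_rfl (Nat.mul_le_mul hT le_rfl)) hup
    have h4 : 2 * (Nat.card (O ⧸ Ideal.span {π}) ^ 3) ^ e = Nat.card (O ⧸ Ideal.span {π}) ^ e *
        (Nat.card (O ⧸ Ideal.span {π}) ^ e * (2 * Nat.card (O ⧸ Ideal.span {π}) ^ e)) := by
      rw [← pow_mul]
      ring
    rw [h4] at h3
    exact Nat.le_of_mul_le_mul_right h3 (by positivity)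
  · intro z hz w hw hzw
    obtain ⟨t, ht, hz1, hz2⟩ := hψ z hz
    obtain ⟨t', ht', hw1, hw2⟩ := hψ w hw
    rw [Finset.mem_product, Finset.mem_product] at hz hw
    obtain ⟨s, hs⟩ := hzw
    obtain ⟨r, hr⟩ := hsq (ψ z * ψ w) s (fun h => (hp.dvd_or_dvd h).elim hz1 hw1) hs
    -- the product is a square
    have h3 : IsSquare ((φ z.1 * dl θ z.2.1 * algebraMap K M (algebraMap O K z.2.2)) *
        (φ w.1 * dl θ w.2.1 * algebraMap K M (algebraMap O K w.2.2))) := by
      rw [hz2, hw2]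
      refine ⟨t * t' * j r, ?_⟩
      have := congrArg j hr
      rw [map_mul, map_mul] at this
      linear_combination (t ^ 2 * t' ^ 2) * this
    -- the classes of the constants
    have hzc0 : algebraMap O K z.2.2 ≠ 0 := by
      rw [Ne, FaithfulSMul.algebraMap_eq_zero_iff]
      rintro h0
      exact hU' _ hz.2.2 (h0 ▸ dvd_zero _)
    have hwc0 : algebraMap O K w.2.2 ≠ 0 := by
      rw [Ne, FaithfulSMul.algebraMap_eq_zero_iff]
      rintro h0
      exact hU' _ hw.2.2 (h0 ▸ dvd_zero _)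
    have h4 : IsSquare (algebraMap O K (z.2.2 * w.2.2)) := by
      obtain ⟨r, hr⟩ := h3
      obtain ⟨n₁, hn₁⟩ := (hφ z.1 hz.1).2
      obtain ⟨n₂, hn₂⟩ := (hφ w.1 hw.1).2
      obtain ⟨n₃, hn₃⟩ := norm_dl hθ z.2.1
      obtain ⟨n₄, hn₄⟩ := norm_dl hθ w.2.1
      have h5 := congrArg (Algebra.norm K) hr
      simp only [map_mul, Algebra.norm_algebraMap, finrank3 hθ, hn₁, hn₂, hn₃, hn₄] at h5
      have g1 : n₁ ≠ 0 := by
        rintro rfl
        rw [mul_zero, Algebra.norm_eq_zero_iff] at hn₁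
        exact (hφ z.1 hz.1).1 hn₁
      have g2 : n₂ ≠ 0 := by
        rintro rfl
        rw [mul_zero, Algebra.norm_eq_zero_iff] at hn₂
        exact (hφ w.1 hw.1).1 hn₂
      have g3 : n₃ ≠ 0 := by
        rintro rfl
        rw [mul_zero, Algebra.norm_eq_zero_iff] at hn₃
        exact hθ.dl_ne _ hn₃
      have g4 : n₄ ≠ 0 := by
        rintro rfl
        rw [mul_zero, Algebra.norm_eq_zero_iff] at hn₄
        exact hθ.dl_ne _ hn₄
      refine ⟨Algebra.norm K r / (n₁ * n₂ * n₃ * n₄ * (algebraMap O K z.2.2 *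
        algebraMap O K w.2.2)), ?_⟩
      rw [map_mul]
      field_simp
      linear_combination h5
    have h5 : z.2.2 = w.2.2 := by
      apply hU'' _ hz.2.2 _ hw.2.2
      obtain ⟨r, hr⟩ := h4
      have hr0 : r ≠ 0 := by
        rintro rfl
        rw [mul_zero, map_mul] at hr
        exact mul_ne_zero hzc0 hwc0 hr
      obtain ⟨k, hk⟩ := h.exE hr0
      have h6 : Eq' K π 0 (algebraMap O K (z.2.2 * w.2.2)) :=
        eq_alg fun h' => (h.pr.dvd_or_dvd h').elim (hU' _ hz.2.2) (hU' _ hw.2.2)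
      have h7 := h.mulE hk hk
      rw [← hr] at h7
      have h8 := h.eqE h6 h7
      have h9 : k = 0 := by omega
      subst h9
      obtain ⟨d, rfl⟩ := hk.ge.int
      rw [← map_mul] at hr
      have h10 := FaithfulSMul.algebraMap_injective O K hr
      refine ⟨d, 0, ?_⟩
      rw [h10]
      ring
    -- the points
    rw [h5] at h3
    have hcM : algebraMap K M (algebraMap O K w.2.2) ≠ 0 := by
      rw [Ne, FaithfulSMul.algebraMap_eq_zero_iff]
      exact hwc0
    have h6 : IsSquare (φ z.1 * φ w.1 * (dl θ z.2.1 * dl θ w.2.1)) := by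
      obtain ⟨r, hr⟩ := h3
      refine ⟨r / algebraMap K M (algebraMap O K w.2.2), ?_⟩
      field_simp
      linear_combination hr
    have h7 : z.1 = w.1 := by
      apply hS _ hz.1 _ hw.1
      refine ⟨z.2.1 + w.2.1, ?_⟩
      obtain ⟨r, hr⟩ := h6
      obtain ⟨r', hr'⟩ := hθ.dl_add z.2.1 w.2.1
      have g1 := mul_ne_zero (hθ.dl_ne z.2.1) (hθ.dl_ne w.2.1)
      refine ⟨r * r' / (dl θ z.2.1 * dl θ w.2.1), ?_⟩
      have g2 := hθ.dl_ne z.2.1
      have g3 := hθ.dl_ne w.2.1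
      field_simp
      linear_combination (dl θ z.2.1 * dl θ w.2.1 * dl θ (z.2.1 + w.2.1)) * hr + r * r * hr'
    have h8 : z.2.1 = w.2.1 := by
      apply hT' _ hz.2.1 _ hw.2.1
      apply hθ.dl_two h.two0
      rw [sub_eq_add_neg]
      apply hθ.dl_mul
      rw [dl_neg]
      obtain ⟨r, hr⟩ := h6
      rw [h7] at hr
      refine ⟨r / φ w.1, ?_⟩
      have g1 := (hφ w.1 hw.1).1
      field_simp
      linear_combination hr
    exact Prod.ext h7 (Prod.ext h8 h5)

end Pool.Agent.H10PR
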