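import Pool.Agent.H10PR.Ell

/-!
# The interface between the parts of TWOI

Project PR (helper68), part TWOI, by helper10.
-/

set_option autoImplicit false
set_option linter.all false

open Polynomial IsDedekindDomain IsDedekindDomain.HeightOneSpectrum NumberField

noncomputable section

namespace Pool.Agent.H10PR

/-- `O` is a complete discrete valuation ring with the prime `π` and a finite residue field;
`2 = π ^ e * unit`. -/
structure CD (O : Type) [CommRing O] (π : O) (e : ℕ) : Prop where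
  pr : Prime π
  fac : ∀ x : O, x ≠ 0 → ∃ (n : ℕ) (y : O), ¬ π ∣ y ∧ x = π ^ n * y
  un : ∀ x : O, ¬ π ∣ x → IsUnit x
  fin : Finite (O ⧸ Ideal.span {π})
  cpl : ∀ s : ℕ → O, (∀ n, π ^ n ∣ s (n + 1) - s n) → ∃ t, ∀ n, π ^ n ∣ t - s n
  he : 1 ≤ e
  two : ∃ u, ¬ π ∣ u ∧ 2 = π ^ e * u

/-- The ring of integers `A` of the unramified cubic extension `M = K(θ)`. -/
def S_AO : Prop := ∀ (O K M : Type) [CommRing O] [IsDomain O] [Field K] [Algebra O K]
  [IsFractionRing O K] [Field M] [Algebra K M] (π : O) (e : ℕ), CD O π e → ∀ (a b : O),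
  Irreducible ((X ^ 3 + C a * X + C b : O[X]).map (Ideal.Quotient.mk (Ideal.span {π}))) →
  ∀ (θ : M), Cub (algebraMap O K a) (algebraMap O K b) θ →
  ∃ (A : Type) (_ : CommRing A) (_ : IsDomain A) (j : A →+* M) (p : A),
    Function.Injective j ∧ Prime p ∧ Finite (A ⧸ Ideal.span {p}) ∧
    Nat.card (A ⧸ Ideal.span {p}) = Nat.card (O ⧸ Ideal.span {π}) ^ 3 ∧
    (∃ u : A, ¬ p ∣ u ∧ 2 = p ^ e * u) ∧
    (∀ α s : A, ¬ p ∣ α → p ^ (2 * e + 1) ∣ α - s ^ 2 → IsSquare α) ∧
    (∀ c : O, ¬ π ∣ c → ∃ α : A, ¬ p ∣ α ∧ j α = algebraMap K M (algebraMap O K c)) ∧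
    ∀ x : M, x ≠ 0 → IsSquare (Algebra.norm K x) →
      ∃ (t : M) (α : A), t ≠ 0 ∧ ¬ p ∣ α ∧ x = t ^ 2 * j α

/-- The completion of a number field at a prime over 2 (with the residue field of the ring of
integers, `f` is used only for the irreducibility modulo `w`). -/
def S_CDW : Prop := ∀ (F : Type) [Field F] [NumberField F] (w : HeightOneSpectrum (𝓞 F)),
  (2 : 𝓞 F) ∈ w.asIdeal → ∀ e : ℕ, w.valuation F (2 : F) = WithZero.exp (-(e : ℤ)) →
  ∃ π : w.adicCompletionIntegers F, CD (w.adicCompletionIntegers F) π e ∧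
    Nat.card (w.adicCompletionIntegers F ⧸ Ideal.span {π}) = Ideal.absNorm w.asIdeal ∧
    ∀ a b : 𝓞 F, Irreducible ((X ^ 3 + C a * X + C b : (𝓞 F)[X]).map
        (Ideal.Quotient.mk w.asIdeal)) →
      Irreducible ((X ^ 3 + C (algebraMap (𝓞 F) (w.adicCompletionIntegers F) a) * X +
        C (algebraMap (𝓞 F) (w.adicCompletionIntegers F) b) :
          (w.adicCompletionIntegers F)[X]).map (Ideal.Quotient.mk (Ideal.span {π})))

end Pool.Agent.H10PR
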