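import Pool.Agent.H10PR.Cd
import Pool.Agent.H14P.Cpl

/-!
# The completion of a number field at a prime over 2

Project PR (helper68), part TWOI (helper10): the statement `S_CDW`, by helper33.
-/

set_option autoImplicit false
set_option linter.all false

open Polynomial IsDedekindDomain IsDedekindDomain.HeightOneSpectrum NumberField WithZero Filter
  Topology

noncomputable section

namespace Pool.Agent.H10PR

variable {F : Type} [Field F] [NumberField F] {v : HeightOneSpectrum (𝓞 F)}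

/-- a closed ball is closed -/
theorem near_lim {s : ℕ → v.adicCompletion F} {t : v.adicCompletion F}
    (ht : Tendsto s atTop (𝓝 t)) (n : ℕ) : ∃ N, ∀ m, N ≤ m → Valued.v (t - s m) ≤ exp (-(n : ℤ)) := by
  have h5 : Tendsto (fun m => t - s m) atTop (𝓝 (t - t)) := tendsto_const_nhds.sub ht
  rw [sub_self] at h5
  have h6 := h5 ((Pool.Agent.H14F.mem_nhds_iff v
    {y : v.adicCompletion F | Valued.v y ≤ exp (-(n : ℤ))}).2 ⟨n, le_rfl⟩)
  rw [mem_map, mem_atTop_sets] at h6
  exact h6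

theorem compl_seq (s : ℕ → v.adicCompletion F)
    (hs : ∀ n, Valued.v (s (n + 1) - s n) ≤ exp (-(n : ℤ))) :
    ∃ t, ∀ n, Valued.v (t - s n) ≤ exp (-(n : ℤ)) := by
  have htel : ∀ n k, Valued.v (s (n + k) - s n) ≤ exp (-(n : ℤ)) := by
    intro n k
    induction k with
    | zero => rw [add_zero, sub_self, map_zero]; exact zero_le
    | succ k ih =>
      have e : s (n + (k + 1)) - s n = (s (n + k + 1) - s (n + k)) + (s (n + k) - s n) := by
        rw [← add_assoc]; ring
      rw [e]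
      refine (Valuation.map_add _ _ _).trans (max_le ((hs (n + k)).trans ?_) ih)
      rw [exp_le_exp]
      push_cast
      omega
  have hc : CauchySeq s := by
    apply NonarchimedeanAddGroup.cauchySeq_of_tendsto_sub_nhds_zero
    intro U hU
    obtain ⟨n, hn⟩ := (Pool.Agent.H14F.mem_nhds_iff v U).1 hU
    rw [mem_map, mem_atTop_sets]
    refine ⟨n, fun m hm => hn ?_⟩
    refine (hs m).trans ?_
    rw [exp_le_exp]
    omega
  obtain ⟨t, ht⟩ := cauchySeq_tendsto_of_complete hc
  refine ⟨t, fun n => ?_⟩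
  obtain ⟨N, hN⟩ := near_lim ht n
  have h1 := hN (n + N) (by omega)
  have e : t - s n = (t - s (n + N)) + (s (n + N) - s n) := by ring
  rw [e]
  exact (Valuation.map_add _ _ _).trans (max_le h1 (htel n N))

variable {π : v.adicCompletionIntegers F}

theorem cdw_cpl (hπ : Valued.v (π : v.adicCompletion F) = exp (-1 : ℤ))
    (s : ℕ → v.adicCompletionIntegers F) (hs : ∀ n, π ^ n ∣ s (n + 1) - s n) :
    ∃ t, ∀ n, π ^ n ∣ t - s n := by
  have h1 : ∀ n : ℕ, Valued.v ((s (n + 1) : v.adicCompletion F) - (s n : v.adicCompletion F)) ≤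
      exp (-(n : ℤ)) := by
    intro n
    have h2 := (Pool.Agent.H14P.dvd_iff hπ (s (n + 1) - s n) n).1 (hs n)
    have e : ((s (n + 1) - s n : v.adicCompletionIntegers F) : v.adicCompletion F) =
        (s (n + 1) : v.adicCompletion F) - (s n : v.adicCompletion F) := rfl
    rw [e] at h2
    exact h2
  obtain ⟨t, ht⟩ := compl_seq (v := v) (fun n => (s n : v.adicCompletion F)) h1
  have ht1 : Valued.v t ≤ 1 := by
    have e : t = (t - (s 0 : v.adicCompletion F)) + (s 0 : v.adicCompletion F) := by ring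
    rw [e]
    refine (Valuation.map_add _ _ _).trans (max_le ((ht 0).trans ?_) (s 0).2)
    rw [← exp_zero, exp_le_exp]
    simp
  refine ⟨⟨t, ht1⟩, fun n => ?_⟩
  rw [Pool.Agent.H14P.dvd_iff hπ]
  exact ht n

/-- the residue field -/
def resQ (hπ : Valued.v (π : v.adicCompletion F) = exp (-1 : ℤ)) :
    IsLocalRing.ResidueField (v.adicCompletionIntegers F) ≃+*
      (v.adicCompletionIntegers F ⧸ Ideal.span {π}) :=
  Ideal.quotEquivOfEq (Pool.Agent.H14P.irr_unif hπ).maximalIdeal_eq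

theorem resQ_mk (hπ : Valued.v (π : v.adicCompletion F) = exp (-1 : ℤ))
    (a : v.adicCompletionIntegers F) :
    resQ hπ (IsLocalRing.residue _ a) = Ideal.Quotient.mk (Ideal.span {π}) a := rfl

theorem cdw : S_CDW := by
  intro F _ _ w h2 e he
  obtain ⟨ϖ, hϖ⟩ := Pool.Agent.H14P.exists_unif w
  set π := algebraMap (𝓞 F) (w.adicCompletionIntegers F) ϖ with hπdef
  have hdv := Pool.Agent.H14P.dv_unif hϖ
  have hcd := Pool.Agent.H14P.irr_unif hϖ
  have h2v : Valued.v ((2 : w.adicCompletionIntegers F) : w.adicCompletion F) =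
      exp (-(e : ℤ)) := by
    rw [← he, ← Pool.Agent.H14P.val_F, map_ofNat]
    rfl
  refine ⟨π, ⟨hdv.prime, ?_, ?_, ?_, cdw_cpl hϖ, ?_, ?_⟩, ?_, ?_⟩
  · intro x hx
    obtain ⟨n, b, hb, hb0⟩ := hdv.fac x hx
    exact ⟨n, b, fun h => hb0 ((hdv.ker b).2 h), hb⟩
  · intro x hx
    rw [← IsLocalRing.residue_ne_zero_iff_isUnit]
    exact fun h => hx ((hdv.ker x).1 h)
  · haveI : Finite (𝓞 F ⧸ w.asIdeal) := Ideal.finiteQuotientOfFreeOfNeBot _ w.ne_bot
    exact Finite.of_equiv _ ((Pool.Agent.H14P.resE hϖ).trans (resQ hϖ)).toEquiv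
  · have h3 : w.valuation F (algebraMap (𝓞 F) F 2) < 1 :=
      (w.valuation_lt_one_iff_mem (K := F) 2).2 h2
    rw [map_ofNat, he, ← exp_zero, exp_lt_exp] at h3
    omega
  · obtain ⟨u, hu⟩ := (Pool.Agent.H14P.dvd_iff hϖ 2 e).2 h2v.le
    refine ⟨u, ?_, hu⟩
    rintro ⟨c, rfl⟩
    have h3 : π ^ (e + 1) ∣ 2 := ⟨c, by rw [hu]; ring⟩
    have h4 := (Pool.Agent.H14P.dvd_iff hϖ 2 (e + 1)).1 h3
    rw [h2v, exp_le_exp] at h4
    push_cast at h4
    omega
  · rw [← Nat.card_congr ((Pool.Agent.H14P.resE hϖ).trans (resQ hϖ)).toEquiv]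
    rfl
  · intro a b hi
    have h3 := (Pool.Agent.H14P.irr_res hϖ (X ^ 3 + C a * X + C b)).1 hi
    have h4 := (MulEquiv.irreducible_iff (Polynomial.mapEquiv (resQ hϖ))).2 h3
    rw [Polynomial.mapEquiv_apply, Polynomial.map_map] at h4
    have e1 : (X ^ 3 + C a * X + C b : (𝓞 F)[X]).map
        (algebraMap (𝓞 F) (w.adicCompletionIntegers F)) =
        X ^ 3 + C (algebraMap (𝓞 F) (w.adicCompletionIntegers F) a) * X +
        C (algebraMap (𝓞 F) (w.adicCompletionIntegers F) b) := by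
      simp only [Polynomial.map_add, Polynomial.map_mul, Polynomial.map_pow, map_X, map_C]
    rw [e1] at h4
    exact h4

end Pool.Agent.H10PR
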