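import Mathlib

/-!
# The group of the points of `y ^ 2 = x ^ 3 + a x + b` and the 2-descent map

Project PR (helper68), part TWOI, by helper10.
-/

set_option autoImplicit false
set_option linter.all false

open Polynomial WeierstrassCurve
open scoped Classical

noncomputable section

namespace Pool.Agent.H10PR

variable {K : Type} [Field K]

/-- the curve -/
abbrev Wc (a b : K) : WeierstrassCurve.Affine K := (⟨0, 0, 0, a, b⟩ : WeierstrassCurve K)

abbrev G (a b : K) : Type := (Wc a b).Point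

variable {a b : K}

/-- the point `P` has the coordinates `x`, `y` -/
def At (P : G a b) (x y : K) : Prop := ∃ h, P = .some x y h

theorem eqn_iff {x y : K} : (Wc a b).Equation x y ↔ y ^ 2 = x ^ 3 + a * x + b := by
  rw [Affine.equation_iff]
  constructor
  · intro h; linear_combination h
  · intro h; linear_combination h

theorem exists_at {P : G a b} (h : P ≠ 0) : ∃ x y, At P x y := by
  rcases P with _ | ⟨x, y, hx⟩
  · exact absurd rfl h
  · exact ⟨x, y, hx, rfl⟩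

theorem At.ne {P : G a b} {x y : K} (h : At P x y) : P ≠ 0 := by
  obtain ⟨h, rfl⟩ := h
  exact Affine.Point.some_ne_zero h

theorem At.eq {P : G a b} {x y : K} (h : At P x y) : y ^ 2 = x ^ 3 + a * x + b := by
  obtain ⟨h, rfl⟩ := h
  exact eqn_iff.1 h.1

theorem At.inj {P : G a b} {x y x' y' : K} (h : At P x y) (h' : At P x' y') : x = x' ∧ y = y' := by
  obtain ⟨h, rfl⟩ := h
  obtain ⟨h', h2⟩ := h'
  rw [Affine.Point.some.injEq] at h2
  exact h2

theorem exists_pt (h2 : (2 : K) ≠ 0) {x y : K} (hy : y ≠ 0) (h : y ^ 2 = x ^ 3 + a * x + b) :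
    ∃ P : G a b, At P x y := by
  have hn : (Wc a b).Nonsingular x y := by
    rw [Affine.nonsingular_iff]
    refine ⟨eqn_iff.2 h, Or.inr ?_⟩
    intro h3
    apply mul_ne_zero h2 hy
    have h4 : y = -y - 0 * x - 0 := h3
    linear_combination h4
  exact ⟨.some x y hn, hn, rfl⟩

theorem At.neg {P : G a b} {x y : K} (h : At P x y) : At (-P) x (-y) := by
  obtain ⟨h, rfl⟩ := h
  rw [Affine.Point.neg_some]
  have e : (Wc a b).negY x y = -y := by
    show -y - 0 * x - 0 = -y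
    ring
  have hn := (Affine.nonsingular_neg (W' := Wc a b) x y).2 h
  refine ⟨e ▸ hn, ?_⟩
  rw [Affine.Point.some.injEq]
  exact ⟨rfl, e⟩

theorem At.same {P Q : G a b} {x y y' : K} (h : At P x y) (h' : At Q x y') : P = Q ∨ P = -Q := by
  obtain ⟨h, rfl⟩ := h
  obtain ⟨h', rfl⟩ := h'
  exact Affine.Point.X_eq_iff.1 rfl

theorem at_add {P Q : G a b} {x₁ y₁ x₂ y₂ : K} (hP : At P x₁ y₁) (hQ : At Q x₂ y₂)
    (hx : x₁ ≠ x₂) : ∃ y₃, At (P + Q) (((y₁ - y₂) / (x₁ - x₂)) ^ 2 - x₁ - x₂) y₃ := by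
  obtain ⟨h1, rfl⟩ := hP
  obtain ⟨h2, rfl⟩ := hQ
  rw [Affine.Point.add_of_X_ne hx]
  have e : (Wc a b).addX x₁ x₂ ((Wc a b).slope x₁ x₂ y₁ y₂) =
      ((y₁ - y₂) / (x₁ - x₂)) ^ 2 - x₁ - x₂ := by
    rw [Affine.slope_of_X_ne hx, Affine.addX]
    show ((y₁ - y₂) / (x₁ - x₂)) ^ 2 + 0 * _ - 0 - x₁ - x₂ = _
    ring
  refine ⟨(Wc a b).addY x₁ x₂ y₁ ((Wc a b).slope x₁ x₂ y₁ y₂), ?_, ?_⟩
  · rw [← e]
    exact Affine.nonsingular_add h1 h2 fun hxy => hx hxy.left
  · rw [Affine.Point.some.injEq]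
    exact ⟨e, rfl⟩

theorem at_dbl (h2 : (2 : K) ≠ 0) {P : G a b} {x y : K} (hP : At P x y) (hy : y ≠ 0) :
    ∃ y₃, At (P + P) (((3 * x ^ 2 + a) / (2 * y)) ^ 2 - 2 * x) y₃ := by
  obtain ⟨h1, rfl⟩ := hP
  have hn : y ≠ (Wc a b).negY x y := by
    intro h3
    apply mul_ne_zero h2 hy
    have h4 : y = -y - 0 * x - 0 := h3
    linear_combination h4
  rw [Affine.Point.add_self_of_Y_ne hn]
  have e : (Wc a b).addX x x ((Wc a b).slope x x y y) =
      ((3 * x ^ 2 + a) / (2 * y)) ^ 2 - 2 * x := by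
    rw [Affine.slope_of_Y_ne rfl hn, Affine.addX]
    show ((3 * x ^ 2 + 2 * 0 * x + a - 0 * y) / (y - (-y - 0 * x - 0))) ^ 2 + 0 * _ - 0 - x - x = _
    have e1 : (3 * x ^ 2 + 2 * 0 * x + a - 0 * y) = 3 * x ^ 2 + a := by ring
    have e2 : (y - (-y - 0 * x - 0)) = 2 * y := by ring
    rw [e1, e2]
    ring
  refine ⟨(Wc a b).addY x x y ((Wc a b).slope x x y y), ?_, ?_⟩
  · rw [← e]
    exact Affine.nonsingular_add h1 h1 fun hxy => hn hxy.right
  · rw [Affine.Point.some.injEq]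
    exact ⟨e, rfl⟩

/-- the line through two points -/
theorem at_line {P Q : G a b} {x₁ y₁ x₂ y₂ : K} (hP : At P x₁ y₁) (hQ : At Q x₂ y₂)
    (h0 : P + Q ≠ 0) : ∃ x₃ y₃ l, At (P + Q) x₃ y₃ ∧
      (C (l : K) * (X - C x₁) + C y₁) ^ 2 - (X ^ 3 + C a * X + C b) =
        -((X - C x₁) * (X - C x₂) * (X - C x₃)) := by
  obtain ⟨h1, rfl⟩ := hP
  obtain ⟨h2, rfl⟩ := hQ
  have hxy : ¬ (x₁ = x₂ ∧ y₁ = (Wc a b).negY x₂ y₂) := by
    intro h
    apply h0
    rw [Affine.Point.add_of_Y_eq h.1 h.2]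
  rw [Affine.Point.add_some hxy]
  refine ⟨_, _, (Wc a b).slope x₁ x₂ y₁ y₂, ⟨Affine.nonsingular_add h1 h2 hxy, rfl⟩, ?_⟩
  rw [← Affine.addPolynomial_slope h1.1 h2.1 hxy, Affine.addPolynomial, Affine.linePolynomial,
    Affine.polynomial]
  have e1 : (Wc a b).a₁ = 0 := rfl
  have e2 : (Wc a b).a₂ = 0 := rfl
  have e3 : (Wc a b).a₃ = 0 := rfl
  have e4 : (Wc a b).a₄ = a := rfl
  have e5 : (Wc a b).a₆ = b := rfl
  rw [e1, e2, e3, e4, e5]
  simp only [eval_add, eval_sub, eval_mul, eval_pow, eval_C, eval_X, C_0, zero_mul, add_zero]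

/-! ### The cubic extension -/

variable {M : Type} [Field M] [Algebra K M]

/-- `M = K(θ)`, `θ ^ 3 + a θ + b = 0` -/
structure Cub (a b : K) (θ : M) : Prop where
  eq : θ ^ 3 + algebraMap K M a * θ + algebraMap K M b = 0
  li : ∀ c₀ c₁ c₂ : K, algebraMap K M c₀ + algebraMap K M c₁ * θ + algebraMap K M c₂ * θ ^ 2 = 0 →
    c₀ = 0 ∧ c₁ = 0 ∧ c₂ = 0
  sp : ∀ z : M, ∃ c₀ c₁ c₂ : K,
    z = algebraMap K M c₀ + algebraMap K M c₁ * θ + algebraMap K M c₂ * θ ^ 2

namespace Cub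

variable {θ : M} (h : Cub a b θ)

include h

theorem ext' {c₀ c₁ c₂ d₀ d₁ d₂ : K}
    (he : algebraMap K M c₀ + algebraMap K M c₁ * θ + algebraMap K M c₂ * θ ^ 2 =
      algebraMap K M d₀ + algebraMap K M d₁ * θ + algebraMap K M d₂ * θ ^ 2) :
    c₀ = d₀ ∧ c₁ = d₁ ∧ c₂ = d₂ := by
  have h1 := h.li (c₀ - d₀) (c₁ - d₁) (c₂ - d₂) (by
    rw [map_sub, map_sub, map_sub]
    linear_combination he)
  exact ⟨sub_eq_zero.1 h1.1, sub_eq_zero.1 h1.2.1, sub_eq_zero.1 h1.2.2⟩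

theorem noroot (x : K) : x ^ 3 + a * x + b ≠ 0 := by
  intro h0
  have h1 : (θ - algebraMap K M x) * (θ ^ 2 + algebraMap K M x * θ +
      algebraMap K M (x ^ 2 + a)) = 0 := by
    have h2 : algebraMap K M (x ^ 3 + a * x + b) = 0 := by rw [h0, map_zero]
    rw [map_add, map_add, map_mul, map_pow] at h2
    rw [map_add, map_pow]
    linear_combination h.eq - h2
  rcases mul_eq_zero.1 h1 with h2 | h2
  · have := (h.li (-x) 1 0 (by rw [map_neg, map_one, map_zero]; linear_combination h2)).2.1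
    exact one_ne_zero this
  · have := (h.li (x ^ 2 + a) x 1 (by rw [map_one]; linear_combination h2)).2.2
    exact one_ne_zero this

theorem yne {P : G a b} {x y : K} (hP : At P x y) : y ≠ 0 := by
  rintro rfl
  apply h.noroot x
  rw [← hP.eq]
  ring

theorem xne (x : K) : algebraMap K M x - θ ≠ 0 := by
  intro h0
  have := (h.li x (-1) 0 (by rw [map_neg, map_one, map_zero]; linear_combination h0)).2.1
  exact one_ne_zero (neg_eq_zero.1 this)

end Cub

/-- the descent map -/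
def dl (θ : M) (P : G a b) : M :=
  match P with
  | 0 => 1
  | .some x _ _ => algebraMap K M x - θ

theorem dl_zero (θ : M) : dl θ (0 : G a b) = 1 := rfl

theorem dl_at {θ : M} {P : G a b} {x y : K} (h : At P x y) : dl θ P = algebraMap K M x - θ := by
  obtain ⟨h, rfl⟩ := h
  rfl

namespace Cub

variable {θ : M} (h : Cub a b θ)

include h

theorem dl_ne (P : G a b) : dl θ P ≠ 0 := by
  by_cases h0 : P = 0
  · rw [h0, dl_zero]; exact one_ne_zero
  · obtain ⟨x, y, hx⟩ := exists_at h0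
    rw [dl_at hx]
    exact h.xne x

theorem dl_add (P Q : G a b) : IsSquare (dl θ P * dl θ Q * dl θ (P + Q)) := by
  by_cases hP : P = 0
  · rw [hP, zero_add, dl_zero, one_mul]
    exact ⟨_, rfl⟩
  by_cases hQ : Q = 0
  · rw [hQ, add_zero, dl_zero, mul_one]
    exact ⟨_, rfl⟩
  obtain ⟨x₁, y₁, h1⟩ := exists_at hP
  obtain ⟨x₂, y₂, h2⟩ := exists_at hQ
  by_cases h0 : P + Q = 0
  · have h3 : Q = -P := by rw [eq_neg_iff_add_eq_zero, add_comm]; exact h0
    have h4 := h1.neg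
    rw [← h3] at h4
    rw [h0, dl_zero, mul_one, dl_at h1, dl_at h4]
    exact ⟨_, rfl⟩
  · obtain ⟨x₃, y₃, l, h3, h4⟩ := at_line h1 h2 h0
    rw [dl_at h1, dl_at h2, dl_at h3]
    have h5 := congrArg (aeval θ) h4
    simp only [map_sub, map_add, map_mul, map_pow, map_neg, aeval_C, aeval_X] at h5
    refine ⟨algebraMap K M l * (θ - algebraMap K M x₁) + algebraMap K M y₁, ?_⟩
    linear_combination -h5 - h.eq

theorem dl_mul (P Q : G a b) (hs : IsSquare (dl θ P * dl θ Q)) : IsSquare (dl θ (P + Q)) := by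
  obtain ⟨s, hs⟩ := hs
  obtain ⟨t, ht⟩ := h.dl_add P Q
  have hne := mul_ne_zero (h.dl_ne P) (h.dl_ne Q)
  have hs0 : s ≠ 0 := by
    rintro rfl
    exact hne (by rw [hs]; ring)
  refine ⟨t / s, ?_⟩
  rw [hs] at ht
  field_simp
  linear_combination ht

/-- points with trivial image are divisible by two -/
theorem dl_two (h2 : (2 : K) ≠ 0) (P : G a b) (hs : IsSquare (dl θ P)) :
    ∃ Q : G a b, P = Q + Q := by
  by_cases hP : P = 0
  · exact ⟨0, by rw [hP, add_zero]⟩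
  obtain ⟨x, y, hx⟩ := exists_at hP
  rw [dl_at hx] at hs
  obtain ⟨s, hs⟩ := hs
  obtain ⟨u₀, u₁, u₂, rfl⟩ := h.sp s
  have hθ3 : θ ^ 3 = - algebraMap K M a * θ - algebraMap K M b := by linear_combination h.eq
  -- `u₂` is not zero
  have hu : u₂ ≠ 0 := by
    rintro rfl
    have h3 := h.ext' (c₀ := x) (c₁ := -1) (c₂ := 0) (d₀ := u₀ ^ 2) (d₁ := 2 * u₀ * u₁)
      (d₂ := u₁ ^ 2) (by
        simp only [map_neg, map_one, map_zero, map_mul, map_pow, map_ofNat]
        rw [map_zero] at hs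
        linear_combination hs)
    have h4 : u₁ = 0 := by
      have := h3.2.2.symm
      exact pow_eq_zero_iff (two_ne_zero) |>.1 this
    rw [h4, mul_zero] at h3
    exact one_ne_zero (neg_eq_zero.1 h3.2.1)
  -- multiply by `θ - c`
  obtain ⟨c, hc⟩ : ∃ c : K, c = u₁ / u₂ := ⟨_, rfl⟩
  have hc' : u₁ = c * u₂ := by rw [hc]; field_simp
  set β : K := -u₂ * b - c * u₀ with hβ
  set α : K := u₀ - a * u₂ - c * u₁ with hα
  have h5 : (θ - algebraMap K M c) * (algebraMap K M u₀ + algebraMap K M u₁ * θ +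
      algebraMap K M u₂ * θ ^ 2) = algebraMap K M α * θ + algebraMap K M β := by
    rw [hα, hβ, hc']
    simp only [map_neg, map_sub, map_mul]
    linear_combination (algebraMap K M u₂) * hθ3
  have h6 : (algebraMap K M x - θ) * (θ - algebraMap K M c) ^ 2 =
      (algebraMap K M α * θ + algebraMap K M β) ^ 2 := by
    rw [← h5, hs]; ring
  -- compare coefficients
  have h7 := h.ext' (c₀ := x * c ^ 2 + b) (c₁ := a - c ^ 2 - 2 * c * x) (c₂ := x + 2 * c)
    (d₀ := β ^ 2) (d₁ := 2 * α * β) (d₂ := α ^ 2) (by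
      simp only [map_neg, map_sub, map_mul, map_add, map_pow, map_ofNat]
      linear_combination h6 + hθ3)
  obtain ⟨e0, e1, e2⟩ := h7
  -- the point
  have e3 : (α * c + β) ^ 2 = c ^ 3 + a * c + b := by
    linear_combination c ^ 2 * (-e2) + c * (-e1) - e0
  have hy : α * c + β ≠ 0 := by
    intro h0
    apply h.noroot c
    rw [← e3, h0]
    ring
  obtain ⟨Q, hQ⟩ := exists_pt h2 hy e3
  obtain ⟨y₃, hQQ⟩ := at_dbl h2 hQ hy
  have e4 : (3 * c ^ 2 + a) / (2 * (α * c + β)) = α := by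
    rw [div_eq_iff (mul_ne_zero h2 hy)]
    linear_combination e1 + 2 * c * e2
  rw [e4] at hQQ
  have e5 : α ^ 2 - 2 * c = x := by linear_combination -e2
  rw [e5] at hQQ
  rcases hx.same hQQ with h8 | h8
  · exact ⟨Q, h8⟩
  · exact ⟨-Q, by rw [h8]; abel⟩

end Cub

end Pool.Agent.H10PR
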