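import Pool.Agent.H10PR.Bound

/-!
# Cubic extensions: embeddings and norms

Project PR (helper68), part TWOI, by helper10.
-/

set_option autoImplicit false
set_option linter.all false

open Polynomial
open scoped Classical

noncomputable section

namespace Pool.Agent.H10PR

/-- polynomials of degree less than three -/
theorem quad_eq {K : Type} [Field K] {p : K[X]} (hp : p.natDegree < 3) :
    p = C (p.coeff 0) + C (p.coeff 1) * X + C (p.coeff 2) * X ^ 2 := by
  conv_lhs => rw [as_sum_range' p 3 hp]
  simp only [Finset.sum_range_succ, Finset.sum_range_zero, zero_add, ← C_mul_X_pow_eq_monomial,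
    pow_zero, mul_one, pow_one]

section adj

variable {K : Type} [Field K] (a b : K)

theorem g_mon : (X ^ 3 + C a * X + C b : K[X]).Monic := cu_monic a b

theorem g_deg : (X ^ 3 + C a * X + C b : K[X]).natDegree = 3 := cu_deg a b

theorem g_irr (h : ∀ x : K, x ^ 3 + a * x + b ≠ 0) : Irreducible (X ^ 3 + C a * X + C b : K[X]) := by
  apply irreducible_of_degree_le_three_of_not_isRoot
  · rw [g_deg]; decide
  · intro x hx
    apply h x
    rw [IsRoot.def] at hx
    simpa using hx

variable {a b}

theorem cub_adj [Fact (Irreducible (X ^ 3 + C a * X + C b : K[X]))] :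
    Cub a b (AdjoinRoot.root (X ^ 3 + C a * X + C b : K[X])) := by
  have hm := g_mon a b
  have key : ∀ p : K[X], p.natDegree < 3 → AdjoinRoot.mk (X ^ 3 + C a * X + C b : K[X]) p = 0 →
      p = 0 := by
    intro p hp h0
    rw [AdjoinRoot.mk_eq_zero] at h0
    by_contra hne
    have := natDegree_le_of_dvd h0 hne
    rw [g_deg] at this
    omega
  refine ⟨?_, ?_, ?_⟩
  · have h1 : AdjoinRoot.mk (X ^ 3 + C a * X + C b : K[X]) (X ^ 3 + C a * X + C b) = 0 :=
      AdjoinRoot.mk_self
    rw [map_add, map_add, map_mul, map_pow, AdjoinRoot.mk_X, AdjoinRoot.mk_C, AdjoinRoot.mk_C] at h1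
    exact h1
  · intro c₀ c₁ c₂ h0
    have h1 := key (C c₀ + C c₁ * X + C c₂ * X ^ 2) ?_ ?_
    · refine ⟨?_, ?_, ?_⟩
      · have := congrArg (fun p => coeff p 0) h1
        simpa [coeff_X, coeff_C] using this
      · have := congrArg (fun p => coeff p 1) h1
        simpa [coeff_X, coeff_C] using this
      · have := congrArg (fun p => coeff p 2) h1
        simpa [coeff_X, coeff_C] using this
    · refine lt_of_le_of_lt ?_ (show 2 < 3 by norm_num)
      compute_degree
    · rw [map_add, map_add, map_mul, map_mul, map_pow, AdjoinRoot.mk_X, AdjoinRoot.mk_C,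
        AdjoinRoot.mk_C, AdjoinRoot.mk_C]
      exact h0
  · intro z
    obtain ⟨p, rfl⟩ := AdjoinRoot.mk_surjective z
    have h1 : AdjoinRoot.mk (X ^ 3 + C a * X + C b : K[X]) p =
        AdjoinRoot.mk _ (p %ₘ (X ^ 3 + C a * X + C b)) := by
      rw [← sub_eq_zero, ← map_sub, AdjoinRoot.mk_eq_zero]
      refine ⟨p /ₘ (X ^ 3 + C a * X + C b), ?_⟩
      have := modByMonic_add_div p (X ^ 3 + C a * X + C b : K[X])
      linear_combination -this
    have h2 : (p %ₘ (X ^ 3 + C a * X + C b)).natDegree < 3 := by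
      have := natDegree_modByMonic_lt p hm (by
        intro h0
        have := g_deg a b
        rw [h0, natDegree_one] at this
        omega)
      rwa [g_deg] at this
    refine ⟨(p %ₘ (X ^ 3 + C a * X + C b)).coeff 0, (p %ₘ (X ^ 3 + C a * X + C b)).coeff 1,
      (p %ₘ (X ^ 3 + C a * X + C b)).coeff 2, ?_⟩
    rw [h1]
    conv_lhs => rw [quad_eq h2]
    rw [map_add, map_add, map_mul, map_mul, map_pow, AdjoinRoot.mk_X, AdjoinRoot.mk_C,
      AdjoinRoot.mk_C, AdjoinRoot.mk_C]
    rfl

end adj

/-! ### Base change -/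

section emb

variable {F L K M : Type} [Field F] [Field L] [Field K] [Field M] [Algebra F L] [Algebra K M]
  (i : F →+* K) {a b : F} {θ : L} {η : M} (hL : Cub a b θ) (hM : Cub (i a) (i b) η)

include hL in
theorem dvd_of_aeval {p : F[X]} (h : aeval θ p = 0) : (X ^ 3 + C a * X + C b : F[X]) ∣ p := by
  have hm := g_mon a b
  have h2 : (p %ₘ (X ^ 3 + C a * X + C b)).natDegree < 3 := by
    have := natDegree_modByMonic_lt p hm (by
      intro h0
      have := g_deg a b
      rw [h0, natDegree_one] at this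
      omega)
    rwa [g_deg] at this
  have h3 : aeval θ (p %ₘ (X ^ 3 + C a * X + C b)) = 0 := by
    have h4 := congrArg (aeval θ) (modByMonic_add_div p (X ^ 3 + C a * X + C b : F[X]))
    rw [map_add, map_mul, h] at h4
    have h5 : aeval θ (X ^ 3 + C a * X + C b : F[X]) = 0 := by
      simp only [map_add, map_mul, map_pow, aeval_X, aeval_C]
      exact hL.eq
    rw [h5, zero_mul, add_zero] at h4
    exact h4
  rw [quad_eq h2] at h3
  simp only [map_add, map_mul, map_pow, aeval_X, aeval_C] at h3
  obtain ⟨e0, e1, e2⟩ := hL.li _ _ _ h3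
  rw [← modByMonic_eq_zero_iff_dvd hm, quad_eq h2, e0, e1, e2]
  simp

include hM in
theorem ev_zero {p : F[X]} (h : (X ^ 3 + C a * X + C b : F[X]) ∣ p) :
    eval₂ ((algebraMap K M).comp i) η p = 0 := by
  obtain ⟨q, rfl⟩ := h
  rw [eval₂_mul]
  have : eval₂ ((algebraMap K M).comp i) η (X ^ 3 + C a * X + C b : F[X]) = 0 := by
    rw [eval₂_add, eval₂_add, eval₂_mul, eval₂_C, eval₂_C, eval₂_X_pow, eval₂_X]
    exact hM.eq
  rw [this, zero_mul]

include hL in
theorem exists_poly (α : L) : ∃ p : F[X], aeval θ p = α := by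
  obtain ⟨c₀, c₁, c₂, rfl⟩ := hL.sp α
  refine ⟨C c₀ + C c₁ * X + C c₂ * X ^ 2, ?_⟩
  simp only [map_add, map_mul, map_pow, aeval_X, aeval_C]

/-- the embedding -/
def em (α : L) : M := eval₂ ((algebraMap K M).comp i) η (exists_poly hL α).choose

include hM in
theorem em_eq {α : L} {p : F[X]} (hp : aeval θ p = α) :
    em i hL (η := η) α = eval₂ ((algebraMap K M).comp i) η p := by
  have h1 := (exists_poly hL α).choose_spec
  have h2 : aeval θ ((exists_poly hL α).choose - p) = 0 := by rw [map_sub, h1, hp, sub_self]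
  have h3 := ev_zero i hM (dvd_of_aeval hL h2)
  rw [eval₂_sub] at h3
  exact sub_eq_zero.1 h3

/-- the embedding as a homomorphism -/
def emb : L →+* M where
  toFun := em i hL (η := η)
  map_one' := by rw [em_eq i hL hM (p := 1) (by rw [map_one]), eval₂_one]
  map_zero' := by rw [em_eq i hL hM (p := 0) (by rw [map_zero]), eval₂_zero]
  map_mul' α β := by
    obtain ⟨p, hp⟩ := exists_poly hL α
    obtain ⟨q, hq⟩ := exists_poly hL β
    rw [em_eq i hL hM hp, em_eq i hL hM hq, em_eq i hL hM (p := p * q) (by rw [map_mul, hp, hq]),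
      eval₂_mul]
  map_add' α β := by
    obtain ⟨p, hp⟩ := exists_poly hL α
    obtain ⟨q, hq⟩ := exists_poly hL β
    rw [em_eq i hL hM hp, em_eq i hL hM hq, em_eq i hL hM (p := p + q) (by rw [map_add, hp, hq]),
      eval₂_add]

theorem emb_aeval (p : F[X]) :
    emb i hL hM (aeval θ p) = eval₂ ((algebraMap K M).comp i) η p := em_eq i hL hM rfl

theorem emb_alg (c : F) : emb i hL hM (algebraMap F L c) = algebraMap K M (i c) := by
  have := emb_aeval i hL hM (C c)
  rwa [aeval_C, eval₂_C] at this

theorem emb_root : emb i hL hM θ = η := by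
  have := emb_aeval i hL hM X
  rwa [aeval_X, eval₂_X] at this

theorem emb_norm (α : L) : Algebra.norm K (emb i hL hM α) = i (Algebra.norm F α) := by
  have hL' : Cub (algebraMap F F a) (algebraMap F F b) θ := hL
  have hM' : Cub (algebraMap K K (i a)) (algebraMap K K (i b)) η := hM
  rw [Algebra.norm_eq_matrix_det (bM hM'), Algebra.norm_eq_matrix_det (bM hL'), RingHom.map_det]
  congr 1
  ext j k
  rw [Algebra.leftMulMatrix_eq_repr_mul, RingHom.mapMatrix_apply, Matrix.map_apply,
    Algebra.leftMulMatrix_eq_repr_mul]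
  have h1 := congrArg (emb i hL hM) ((bM hL').sum_repr (α * bM hL' k))
  rw [map_sum] at h1
  have h2 : emb i hL hM (α * bM hL' k) = emb i hL hM α * bM hM' k := by
    rw [map_mul, bM_apply, bM_apply, map_pow, emb_root]
  rw [h2] at h1
  rw [← h1]
  have h3 : ∑ l, emb i hL hM ((bM hL').repr (α * bM hL' k) l • bM hL' l) =
      ∑ l, i ((bM hL').repr (α * bM hL' k) l) • bM hM' l := by
    refine Finset.sum_congr rfl fun l _ => ?_
    rw [Algebra.smul_def, Algebra.smul_def, map_mul, emb_alg, bM_apply hL' l, bM_apply hM' l,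
      map_pow, emb_root]
  rw [h3, Module.Basis.repr_sum_self]

end emb

end Pool.Agent.H10PR
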