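import Pool.Agent.H68K.PR.StmP

/-!
# Project PR, phase 2: EUL (helper10)

Euler's identity `∑_k ∏_{1 ≤ i ≤ k} 2 / (2 ^ i - 1) = ∏_{j ≥ 0} (1 + 2 ^ (-j))`.
-/

set_option autoImplicit false

open Filter Topology

namespace Pool.Agent.H10PR

/-- The coefficients `∏_{1 ≤ i ≤ k} 2 / (2 ^ i - 1)`. -/
noncomputable def ak (k : ℕ) : ℝ := ∏ i ∈ Finset.range k, (2 / ((2 : ℝ) ^ (i + 1) - 1))

theorem ak_zero : ak 0 = 1 := by simp [ak]

theorem two_pow_sub_pos (i : ℕ) : 0 < (2 : ℝ) ^ (i + 1) - 1 := by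
  have : (1 : ℝ) < 2 ^ (i + 1) := one_lt_pow₀ (by norm_num) (by omega)
  linarith

theorem ak_succ (k : ℕ) : ak (k + 1) = ak k * (2 / ((2 : ℝ) ^ (k + 1) - 1)) := by
  rw [ak, Finset.prod_range_succ, ← ak]

theorem ak_pos (k : ℕ) : 0 < ak k :=
  Finset.prod_pos fun i _ => div_pos (by norm_num) (two_pow_sub_pos i)

/-- The recursion: `a_{k+1} (1 - x^{k+1}) = a_k x^k` for `x = 1/2`. -/
theorem ak_rec (k : ℕ) : ak (k + 1) * (1 - (2 : ℝ)⁻¹ ^ (k + 1)) = ak k * (2 : ℝ)⁻¹ ^ k := by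
  rw [ak_succ]
  have h1 := two_pow_sub_pos k
  have h2 : (2 : ℝ)⁻¹ ^ (k + 1) = ((2 : ℝ) ^ (k + 1))⁻¹ := inv_pow _ _
  have h3 : (2 : ℝ)⁻¹ ^ k = 2 * ((2 : ℝ) ^ (k + 1))⁻¹ := by
    rw [inv_pow, pow_succ]
    field_simp
  have h4 : (0 : ℝ) < 2 ^ (k + 1) := by positivity
  rw [h2, h3]
  field_simp

theorem summable_ak : Summable ak := by
  refine summable_of_ratio_norm_eventually_le (r := 2 / 3) (by norm_num) ?_
  filter_upwards [eventually_ge_atTop 1] with k hk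
  rw [Real.norm_of_nonneg (ak_pos _).le, Real.norm_of_nonneg (ak_pos _).le, ak_succ, mul_comm]
  refine mul_le_mul_of_nonneg_right ?_ (ak_pos _).le
  have h1 := two_pow_sub_pos k
  have h2 : (2 : ℝ) ^ 2 ≤ 2 ^ (k + 1) := pow_le_pow_right₀ (by norm_num) (by omega)
  rw [div_le_div_iff₀ h1 (by norm_num)]
  linarith

/-- `G_n = ∑_k a_k x^{n k}`. -/
noncomputable def Gn (n : ℕ) : ℝ := ∑' k, ak k * ((2 : ℝ)⁻¹ ^ n) ^ k

theorem pow_half_le_one (n k : ℕ) : ((2 : ℝ)⁻¹ ^ n) ^ k ≤ 1 :=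
  pow_le_one₀ (by positivity) (pow_le_one₀ (by norm_num) (by norm_num))

theorem summable_Gn (n : ℕ) : Summable fun k => ak k * ((2 : ℝ)⁻¹ ^ n) ^ k := by
  refine Summable.of_nonneg_of_le (fun k => ?_) (fun k => ?_) summable_ak
  · exact mul_nonneg (ak_pos k).le (by positivity)
  · exact mul_le_of_le_one_right (ak_pos k).le (pow_half_le_one n k)

theorem Gn_rec (n : ℕ) : Gn n = (1 + (2 : ℝ)⁻¹ ^ n) * Gn (n + 1) := by
  have h1 : Gn n - Gn (n + 1) = (2 : ℝ)⁻¹ ^ n * Gn (n + 1) := by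
    rw [Gn, Gn, ← (summable_Gn n).tsum_sub (summable_Gn (n + 1)),
      ((summable_Gn n).sub (summable_Gn (n + 1))).tsum_eq_zero_add, ← tsum_mul_left]
    simp only [pow_zero, mul_one, sub_self, zero_add]
    refine tsum_congr fun k => ?_
    have h2 := ak_rec k
    have h3 : ((2 : ℝ)⁻¹ ^ (n + 1)) ^ (k + 1) = ((2 : ℝ)⁻¹ ^ n) ^ (k + 1) * (2 : ℝ)⁻¹ ^ (k + 1) := by
      rw [← mul_pow, ← pow_succ]
    have h4 : ((2 : ℝ)⁻¹ ^ (n + 1)) ^ k = ((2 : ℝ)⁻¹ ^ n) ^ k * (2 : ℝ)⁻¹ ^ k := by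
      rw [← mul_pow, ← pow_succ]
    rw [h3, h4]
    calc ak (k + 1) * ((2 : ℝ)⁻¹ ^ n) ^ (k + 1) -
          ak (k + 1) * (((2 : ℝ)⁻¹ ^ n) ^ (k + 1) * (2 : ℝ)⁻¹ ^ (k + 1))
        = (ak (k + 1) * (1 - (2 : ℝ)⁻¹ ^ (k + 1))) * ((2 : ℝ)⁻¹ ^ n) ^ (k + 1) := by ring
      _ = (ak k * (2 : ℝ)⁻¹ ^ k) * ((2 : ℝ)⁻¹ ^ n) ^ (k + 1) := by rw [h2]
      _ = _ := by ring
  linarith

theorem Gn_zero_eq (n : ℕ) : Gn 0 = (∏ j ∈ Finset.range n, (1 + (2 : ℝ)⁻¹ ^ j)) * Gn n := by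
  induction n with
  | zero => simp
  | succ n ih => rw [Finset.prod_range_succ, ih, Gn_rec n, mul_assoc]

theorem Gn_ge_one (n : ℕ) : 1 ≤ Gn n := by
  have h := (summable_Gn n).le_tsum 0 (fun k _ => mul_nonneg (ak_pos k).le (by positivity))
  simpa [ak_zero, Gn] using h

theorem Gn_le (n : ℕ) : Gn n ≤ 1 + (2 : ℝ)⁻¹ ^ n * Gn 0 := by
  have h0 : Gn 0 = ∑' k, ak k := by simp [Gn]
  rw [Gn, (summable_Gn n).tsum_eq_zero_add, h0, summable_ak.tsum_eq_zero_add]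
  have h1 : Summable fun k => ak (k + 1) := (summable_nat_add_iff 1).2 summable_ak
  have h2 : Summable fun k => ak (k + 1) * ((2 : ℝ)⁻¹ ^ n) ^ (k + 1) :=
    (summable_nat_add_iff 1).2 (summable_Gn n)
  have h3 : ∑' k, ak (k + 1) * ((2 : ℝ)⁻¹ ^ n) ^ (k + 1) ≤ ∑' k, ak (k + 1) * (2 : ℝ)⁻¹ ^ n := by
    refine h2.tsum_le_tsum (fun k => ?_) (h1.mul_right _)
    refine mul_le_mul_of_nonneg_left ?_ (ak_pos _).le
    rw [pow_succ]
    exact mul_le_of_le_one_left (by positivity) (pow_half_le_one n k)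
  rw [tsum_mul_right] at h3
  rw [ak_zero]
  have h4 : (0 : ℝ) ≤ (2 : ℝ)⁻¹ ^ n := by positivity
  simp only [pow_zero, mul_one]
  nlinarith

theorem tendsto_Gn : Tendsto Gn atTop (𝓝 1) := by
  have h1 : Tendsto (fun n : ℕ => 1 + (2 : ℝ)⁻¹ ^ n * Gn 0) atTop (𝓝 (1 + 0 * Gn 0)) :=
    ((tendsto_pow_atTop_nhds_zero_of_lt_one (by norm_num) (by norm_num)).mul_const _).const_add _
  rw [zero_mul, add_zero] at h1
  exact tendsto_of_tendsto_of_tendsto_of_le_of_le tendsto_const_nhds h1 Gn_ge_one Gn_le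

theorem tendsto_prod : Tendsto (fun n : ℕ => ∏ j ∈ Finset.range n, (1 + (2 : ℝ)⁻¹ ^ j)) atTop
    (𝓝 (Gn 0)) := by
  have h1 : (fun n : ℕ => ∏ j ∈ Finset.range n, (1 + (2 : ℝ)⁻¹ ^ j)) = fun n => Gn 0 / Gn n := by
    funext n
    have h2 : Gn n ≠ 0 := by
      have := Gn_ge_one n
      positivity
    rw [eq_div_iff h2, ← Gn_zero_eq]
  rw [h1]
  have h3 : Tendsto (fun n => Gn 0 / Gn n) atTop (𝓝 (Gn 0 / 1)) :=
    tendsto_const_nhds.div tendsto_Gn one_ne_zero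
  rwa [div_one] at h3

theorem tendsto_prod_inv :
    Tendsto (fun n : ℕ => ∏ j ∈ Finset.range n, (1 + (2 : ℝ)⁻¹ ^ j)⁻¹) atTop (𝓝 (Gn 0)⁻¹) := by
  have h1 : (fun n : ℕ => ∏ j ∈ Finset.range n, (1 + (2 : ℝ)⁻¹ ^ j)⁻¹) =
      fun n => (∏ j ∈ Finset.range n, (1 + (2 : ℝ)⁻¹ ^ j))⁻¹ := by
    funext n
    rw [Finset.prod_inv_distrib]
  rw [h1]
  have h2 : Gn 0 ≠ 0 := by
    have := Gn_ge_one 0
    positivity
  exact tendsto_prod.inv₀ h2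

theorem summable_half : Summable fun j : ℕ => ‖(2 : ℝ)⁻¹ ^ j‖ := by
  have h : Summable fun j : ℕ => (2 : ℝ)⁻¹ ^ j :=
    summable_geometric_of_lt_one (by norm_num) (by norm_num)
  simpa using h

theorem multipliable_inv : Multipliable fun j : ℕ => (1 + (2 : ℝ)⁻¹ ^ j)⁻¹ := by
  have h1 : Multipliable fun j : ℕ => (1 + (2 : ℝ)⁻¹ ^ j) :=
    multipliable_one_add_of_summable summable_half
  obtain ⟨a, ha⟩ := h1
  have h3 : a = Gn 0 := tendsto_nhds_unique ha.tendsto_prod_nat tendsto_prod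
  have h2 : a ≠ 0 := by
    have := Gn_ge_one 0
    rw [h3]
    positivity
  exact ⟨a⁻¹, by
    have := Tendsto.inv₀ ha h2
    refine Tendsto.congr (fun s => ?_) this
    rw [Finset.prod_inv_distrib]⟩

theorem tprod_inv : ∏' j : ℕ, (1 + (2 : ℝ)⁻¹ ^ j)⁻¹ = (Gn 0)⁻¹ :=
  tendsto_nhds_unique multipliable_inv.hasProd.tendsto_prod_nat tendsto_prod_inv

theorem eul : Pool.Agent.H68K.PR.S_EUL := by
  have h0 : 0 < Gn 0 := lt_of_lt_of_le one_pos (Gn_ge_one 0)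
  refine ⟨fun k => ?_, ?_, ?_⟩
  · rw [Pool.Agent.H68K.PR.pr2, tprod_inv]
    exact mul_pos (inv_pos.2 h0) (ak_pos k)
  · have h1 : Gn 0 = ∑' k, ak k := by simp [Gn]
    have h2 : HasSum ak (Gn 0) := by
      rw [h1]
      exact summable_ak.hasSum
    have h3 := h2.mul_left (Gn 0)⁻¹
    rw [inv_mul_cancel₀ h0.ne'] at h3
    have h4 : Pool.Agent.H68K.PR.pr2 = fun k => (Gn 0)⁻¹ * ak k := by
      funext k
      rw [Pool.Agent.H68K.PR.pr2, tprod_inv]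
      rfl
    rw [h4]
    exact h3
  · rw [tprod_inv]
    exact tendsto_prod_inv

end Pool.Agent.H10PR
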