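import Pool.Agent.H10PR.Grp

/-!
# Square classes of units modulo `π ^ (2 e + 1)`

Project PR (helper68), part TWOI, by helper10.
-/

set_option autoImplicit false
set_option linter.all false

open Finset
open scoped Classical

namespace Pool.Agent.H10PR

section ring

variable {B : Type} [CommRing B] [IsDomain B] {π : B}

theorem span_index {a b : B} (ha : a ≠ 0) :
    (Ideal.span {a * b}).toAddSubgroup.index =
      (Ideal.span {b}).toAddSubgroup.index * (Ideal.span {a}).toAddSubgroup.index := by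
  have hinj : Function.Injective (AddMonoidHom.mulLeft a) := fun x y h => mul_left_cancel₀ ha h
  have e1 : (Ideal.span {a * b}).toAddSubgroup =
      (Ideal.span {b}).toAddSubgroup.map (AddMonoidHom.mulLeft a) := by
    ext x
    rw [AddSubgroup.mem_map]
    constructor
    · intro h
      obtain ⟨c, rfl⟩ := Ideal.mem_span_singleton.1 h
      exact ⟨b * c, Ideal.mem_span_singleton.2 ⟨c, rfl⟩, by simp [mul_assoc]⟩
    · rintro ⟨y, hy, rfl⟩
      obtain ⟨c, rfl⟩ := Ideal.mem_span_singleton.1 hy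
      exact Ideal.mem_span_singleton.2 ⟨c, by simp [mul_assoc]⟩
  have e2 : (Ideal.span {a}).toAddSubgroup =
      (⊤ : AddSubgroup B).map (AddMonoidHom.mulLeft a) := by
    ext x
    rw [AddSubgroup.mem_map]
    constructor
    · intro h
      obtain ⟨c, rfl⟩ := Ideal.mem_span_singleton.1 h
      exact ⟨c, AddSubgroup.mem_top _, rfl⟩
    · rintro ⟨y, hy, rfl⟩
      exact Ideal.mem_span_singleton.2 ⟨y, rfl⟩
  have hle : (Ideal.span {a * b}).toAddSubgroup ≤ (Ideal.span {a}).toAddSubgroup := by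
    intro x hx
    obtain ⟨c, rfl⟩ := Ideal.mem_span_singleton.1 hx
    exact Ideal.mem_span_singleton.2 ⟨b * c, by ring⟩
  rw [← AddSubgroup.relIndex_mul_index hle]
  congr 1
  rw [e1, e2, AddSubgroup.relIndex_map_map_of_injective _ _ hinj, AddSubgroup.relIndex_top_right]

theorem card_eq_index (I : Ideal B) : Nat.card (B ⧸ I) = I.toAddSubgroup.index := rfl

theorem card_pow (hπ : π ≠ 0) (n : ℕ) :
    Nat.card (B ⧸ Ideal.span {π ^ n}) = Nat.card (B ⧸ Ideal.span {π}) ^ n := by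
  induction n with
  | zero =>
    rw [pow_zero, pow_zero, Ideal.span_singleton_one, card_eq_index]
    exact AddSubgroup.index_top
  | succ n ih =>
    rw [card_eq_index, pow_succ, span_index (pow_ne_zero n hπ), ← card_eq_index, ← card_eq_index, ih,
      pow_succ, mul_comm]

theorem finite_pow (hπ : π ≠ 0) [Finite (B ⧸ Ideal.span {π})] (n : ℕ) :
    Finite (B ⧸ Ideal.span {π ^ n}) := by
  haveI : Nonempty (B ⧸ Ideal.span {π}) := ⟨0⟩
  have h1 : 0 < Nat.card (B ⧸ Ideal.span {π ^ n}) := by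
    rw [card_pow hπ]
    exact pow_pos Nat.card_pos n
  exact (Nat.card_pos_iff.1 h1).2

theorem prime_split {p : B} (hp : Prime p) (N : ℕ) (a b : B) (h : p ^ N ∣ a * b) :
    ∃ i j, i + j = N ∧ p ^ i ∣ a ∧ p ^ j ∣ b := by
  induction N with
  | zero => exact ⟨0, 0, rfl, by simp, by simp⟩
  | succ N ih =>
    obtain ⟨i, j, hij, ⟨a', ha⟩, ⟨b', hb⟩⟩ := ih ((pow_dvd_pow p (Nat.le_succ N)).trans h)
    have h1 : p ^ N * p ∣ p ^ N * (a' * b') := by
      rw [← pow_succ]
      have e : p ^ N * (a' * b') = a * b := by rw [ha, hb, ← hij, pow_add]; ring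
      rw [e]; exact h
    rcases hp.dvd_or_dvd ((mul_dvd_mul_iff_left (pow_ne_zero _ hp.ne_zero)).1 h1) with h2 | h2
    · obtain ⟨c, rfl⟩ := h2
      exact ⟨i + 1, j, by omega, ⟨c, by rw [ha]; ring⟩, ⟨b', hb⟩⟩
    · obtain ⟨c, rfl⟩ := h2
      exact ⟨i, j + 1, by omega, ⟨a', ha⟩, ⟨c, by rw [hb]; ring⟩⟩

/-- The square roots of one. -/
theorem card_roots (hπ : Prime π) {e : ℕ} {u : B} (hu : (2 : B) = π ^ e * u) (hu' : ¬ π ∣ u) :
    Nat.card {r : B ⧸ Ideal.span {π ^ (2 * e + 1)} // r * r = 1} =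
      2 * Nat.card (B ⧸ Ideal.span {π}) ^ e := by
  rw [← card_pow hπ.ne_zero]
  -- the parametrisation
  have hmk : ∀ x y : B, (Ideal.Quotient.mk (Ideal.span {π ^ (2 * e + 1)}) x =
      Ideal.Quotient.mk _ y) ↔ π ^ (2 * e + 1) ∣ x - y := by
    intro x y
    rw [Ideal.Quotient.mk_eq_mk_iff_sub_mem, Ideal.mem_span_singleton]
  have hmk' : ∀ x y : B, (Ideal.Quotient.mk (Ideal.span {π ^ e}) x =
      Ideal.Quotient.mk _ y) ↔ π ^ e ∣ x - y := by
    intro x y
    rw [Ideal.Quotient.mk_eq_mk_iff_sub_mem, Ideal.mem_span_singleton]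
  let g : B ⧸ Ideal.span {π ^ e} → B ⧸ Ideal.span {π ^ (2 * e + 1)} := fun c =>
    Ideal.Quotient.mk _ (π ^ (e + 1) * Quotient.out c)
  have hout : ∀ c : B ⧸ Ideal.span {π ^ e}, Ideal.Quotient.mk _ (Quotient.out c) = c :=
    fun c => Quotient.out_eq c
  have hg : ∀ x : B, g (Ideal.Quotient.mk _ x) = Ideal.Quotient.mk _ (π ^ (e + 1) * x) := by
    intro x
    obtain ⟨t, ht⟩ := (hmk' _ _).1 (hout (Ideal.Quotient.mk _ x))
    simp only [g]
    rw [hmk]
    refine ⟨t, ?_⟩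
    rw [← mul_sub, ht]
    ring
  have hgi : Function.Injective g := by
    intro c d hcd
    obtain ⟨x, rfl⟩ := Ideal.Quotient.mk_surjective c
    obtain ⟨y, rfl⟩ := Ideal.Quotient.mk_surjective d
    rw [hg, hg, hmk, ← mul_sub] at hcd
    rw [hmk']
    have h1 : π ^ (2 * e + 1) = π ^ (e + 1) * π ^ e := by rw [← pow_add]; congr 1; omega
    rw [h1] at hcd
    exact (mul_dvd_mul_iff_left (pow_ne_zero _ hπ.ne_zero)).1 hcd
  let sg : Bool → B := fun s => if s then 1 else -1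
  have hsg : ∀ s, sg s * sg s = 1 := by intro s; cases s <;> simp [sg]
  have hsg2 : ∀ s, π ^ e ∣ 2 * sg s := by
    intro s
    rw [hu, mul_assoc]
    exact dvd_mul_right _ _
  let Φ : (B ⧸ Ideal.span {π ^ e}) × Bool → {r : B ⧸ Ideal.span {π ^ (2 * e + 1)} // r * r = 1} :=
    fun p => ⟨Ideal.Quotient.mk _ (sg p.2) + g p.1, by
      obtain ⟨x, hx⟩ := Ideal.Quotient.mk_surjective p.1
      rw [← hx, hg, ← map_add, ← map_mul, ← map_one (Ideal.Quotient.mk _), hmk]
      obtain ⟨t, ht⟩ := hsg2 p.2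
      refine ⟨t * x + π * x ^ 2, ?_⟩
      have h1 := hsg p.2
      have h2 : π ^ (2 * e + 1) = π ^ (e + 1) * π ^ e := by rw [← pow_add]; congr 1; omega
      rw [h2]
      have h3 : π ^ (e + 1) = π ^ e * π := pow_succ π e
      rw [h3]
      linear_combination h1 + π ^ e * π * x * ht⟩
  have hΦ : Function.Bijective Φ := by
    constructor
    · rintro ⟨c, s⟩ ⟨d, t⟩ hcd
      have h1 : Ideal.Quotient.mk (Ideal.span {π ^ (2 * e + 1)}) (sg s) + g c =
        Ideal.Quotient.mk _ (sg t) + g d := congrArg Subtype.val hcd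
      have hst : s = t := by
        by_contra hne
        obtain ⟨x, rfl⟩ := Ideal.Quotient.mk_surjective c
        obtain ⟨y, rfl⟩ := Ideal.Quotient.mk_surjective d
        rw [hg, hg, ← map_add, ← map_add, hmk] at h1
        have h2 : π ^ (e + 1) ∣ 2 := by
          have h3 : π ^ (e + 1) ∣ sg s - sg t := by
            obtain ⟨w, hw⟩ := h1
            refine ⟨y - x + π ^ e * w, ?_⟩
            have h4 : π ^ (2 * e + 1) = π ^ (e + 1) * π ^ e := by
              rw [← pow_add]; congr 1; omega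
            rw [h4] at hw
            linear_combination hw
          have e5 : sg true - sg false = 2 := by norm_num [sg]
          have e6 : sg false - sg true = -2 := by norm_num [sg]
          cases s <;> cases t
          · exact absurd rfl hne
          · rw [e6] at h3
            exact (dvd_neg).1 h3
          · rw [e5] at h3
            exact h3
          · exact absurd rfl hne
        rw [hu, pow_succ, mul_dvd_mul_iff_left (pow_ne_zero _ hπ.ne_zero)] at h2
        exact hu' h2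
      subst hst
      rw [add_right_inj] at h1
      rw [hgi h1]
    · rintro ⟨r, hr⟩
      obtain ⟨x, rfl⟩ := Ideal.Quotient.mk_surjective r
      have h1 := hr
      rw [← map_mul, ← map_one (Ideal.Quotient.mk _), hmk] at h1
      have h2 : π ^ (2 * e + 1) ∣ (x - 1) * (x + 1) := by
        have e1 : (x - 1) * (x + 1) = x * x - 1 := by ring
        rw [e1]; exact h1
      have h3 : π ^ (e + 1) ∣ x - 1 ∨ π ^ (e + 1) ∣ x + 1 := by
        obtain ⟨i, j, hij, hi, hj⟩ := prime_split hπ _ _ _ h2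
        rcases Nat.lt_or_ge i (e + 1) with h4 | h4
        · exact Or.inr ((pow_dvd_pow π (by omega)).trans hj)
        · exact Or.inl ((pow_dvd_pow π h4).trans hi)
      rcases h3 with ⟨t, ht⟩ | ⟨t, ht⟩
      · refine ⟨(Ideal.Quotient.mk _ t, true), ?_⟩
        apply Subtype.ext
        show Ideal.Quotient.mk _ (sg true) + g (Ideal.Quotient.mk _ t) = _
        rw [hg, ← map_add, ← ht]
        simp [sg]
      · refine ⟨(Ideal.Quotient.mk _ t, false), ?_⟩
        apply Subtype.ext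
        show Ideal.Quotient.mk _ (sg false) + g (Ideal.Quotient.mk _ t) = _
        rw [hg, ← map_add, ← ht]
        simp [sg]
  rw [← Nat.card_eq_of_bijective Φ hΦ, Nat.card_prod, mul_comm]
  congr 1
  simp

theorem unit_of (hπ : Prime π) [Finite (B ⧸ Ideal.span {π})] (N : ℕ) {x : B} (hx : ¬ π ∣ x) :
    IsUnit (Ideal.Quotient.mk (Ideal.span {π ^ N}) x) := by
  haveI hpr : (Ideal.span {π}).IsPrime := (Ideal.span_singleton_prime hπ.ne_zero).2 hπ
  haveI : IsDomain (B ⧸ Ideal.span {π}) := Ideal.Quotient.isDomain _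
  have hx0 : Ideal.Quotient.mk (Ideal.span {π}) x ≠ 0 := by
    rw [Ne, Ideal.Quotient.eq_zero_iff_mem, Ideal.mem_span_singleton]
    exact hx
  obtain ⟨y', hy'⟩ := (Finite.isField_of_domain (B ⧸ Ideal.span {π})).mul_inv_cancel hx0
  obtain ⟨y, rfl⟩ := Ideal.Quotient.mk_surjective y'
  rw [← map_mul, ← map_one (Ideal.Quotient.mk _), Ideal.Quotient.mk_eq_mk_iff_sub_mem,
    Ideal.mem_span_singleton] at hy'
  obtain ⟨t, ht⟩ := hy'
  have hn : IsNilpotent (Ideal.Quotient.mk (Ideal.span {π ^ N}) (π * t)) := by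
    refine ⟨N, ?_⟩
    rw [← map_pow, Ideal.Quotient.eq_zero_iff_mem, Ideal.mem_span_singleton, mul_pow]
    exact dvd_mul_right _ _
  have h1 : Ideal.Quotient.mk (Ideal.span {π ^ N}) x * Ideal.Quotient.mk _ y =
      1 + Ideal.Quotient.mk _ (π * t) := by
    rw [← map_mul, ← ht, ← map_one (Ideal.Quotient.mk _), ← map_add]
    congr 1
    ring
  have h2 := hn.isUnit_one_add
  rw [← h1] at h2
  exact isUnit_of_mul_isUnit_left h2

theorem card_addunits (R : Type) [CommRing R] :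
    Nat.card {x : Additive Rˣ // x + x = 0} = Nat.card {r : R // r * r = 1} := by
  refine Nat.card_congr ⟨fun x => ⟨(x.1.toMul : R), ?_⟩, fun r => ⟨Additive.ofMul
    ⟨r.1, r.1, r.2, r.2⟩, ?_⟩, ?_, ?_⟩
  · have h1 := congrArg (fun z : Additive Rˣ => ((z.toMul : Rˣ) : R)) x.2
    exact h1
  · apply Additive.toMul.injective
    apply Units.ext
    exact r.2
  · rintro ⟨x, hx⟩
    apply Subtype.ext
    apply Additive.toMul.injective
    apply Units.ext
    rfl
  · rintro ⟨r, hr⟩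
    rfl

/-- upper bound -/
theorem ring_up (hπ : Prime π) [Finite (B ⧸ Ideal.span {π})] {e : ℕ} {u : B}
    (hu : (2 : B) = π ^ e * u) (hu' : ¬ π ∣ u) {ι : Type} (S : Finset ι) (φ : ι → B)
    (hφ : ∀ i ∈ S, ¬ π ∣ φ i)
    (h : ∀ x ∈ S, ∀ y ∈ S, (∃ s, π ^ (2 * e + 1) ∣ φ x * φ y - s ^ 2) → x = y) :
    S.card ≤ 2 * Nat.card (B ⧸ Ideal.span {π}) ^ e := by
  haveI := finite_pow hπ.ne_zero (2 * e + 1)
  haveI : Finite (Additive (B ⧸ Ideal.span {π ^ (2 * e + 1)})ˣ) :=
    inferInstanceAs (Finite (B ⧸ Ideal.span {π ^ (2 * e + 1)})ˣ)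
  rw [← card_roots hπ hu hu', ← card_addunits]
  let ψ : ι → Additive (B ⧸ Ideal.span {π ^ (2 * e + 1)})ˣ := fun i =>
    if hi : ¬ π ∣ φ i then Additive.ofMul (unit_of hπ (2 * e + 1) hi).unit else 0
  have hψ : ∀ i ∈ S, (((ψ i).toMul : (B ⧸ Ideal.span {π ^ (2 * e + 1)})ˣ) :
      B ⧸ Ideal.span {π ^ (2 * e + 1)}) = Ideal.Quotient.mk _ (φ i) := by
    intro i hi
    simp only [ψ, dif_pos (hφ i hi)]
    rfl
  refine grp_up S ψ fun x hx y hy => ?_
  rintro ⟨z, hz⟩
  apply h x hx y hy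
  obtain ⟨s, hs⟩ := Ideal.Quotient.mk_surjective (I := Ideal.span {π ^ (2 * e + 1)})
    ((z.toMul : (B ⧸ Ideal.span {π ^ (2 * e + 1)})ˣ) : B ⧸ Ideal.span {π ^ (2 * e + 1)})
  refine ⟨s * φ x, ?_⟩
  have h1 : ψ y = (z + z) + ψ x := by rw [← hz]; abel
  have h2 := congrArg (fun z : Additive (B ⧸ Ideal.span {π ^ (2 * e + 1)})ˣ =>
    ((z.toMul : (B ⧸ Ideal.span {π ^ (2 * e + 1)})ˣ) : B ⧸ Ideal.span {π ^ (2 * e + 1)})) h1
  simp only [toMul_add, Units.val_mul] at h2
  rw [hψ x hx, hψ y hy, ← hs, ← map_mul, ← map_mul, Ideal.Quotient.mk_eq_mk_iff_sub_mem,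
    Ideal.mem_span_singleton] at h2
  obtain ⟨t, ht⟩ := h2
  refine ⟨t * φ x, ?_⟩
  linear_combination φ x * ht

/-- lower bound -/
theorem ring_lo (hπ : Prime π) [Finite (B ⧸ Ideal.span {π})] {e : ℕ} {u : B}
    (hu : (2 : B) = π ^ e * u) (hu' : ¬ π ∣ u) :
    ∃ S : Finset B, S.card = 2 * Nat.card (B ⧸ Ideal.span {π}) ^ e ∧ (∀ x ∈ S, ¬ π ∣ x) ∧
    ∀ x ∈ S, ∀ y ∈ S, (∃ s, π ^ (2 * e + 1) ∣ x * y - s ^ 2) → x = y := by
  haveI := finite_pow hπ.ne_zero (2 * e + 1)
  haveI : Finite (Additive (B ⧸ Ideal.span {π ^ (2 * e + 1)})ˣ) :=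
    inferInstanceAs (Finite (B ⧸ Ideal.span {π ^ (2 * e + 1)})ˣ)
  obtain ⟨S, hS, hS'⟩ := grp_lo (Q := Additive (B ⧸ Ideal.span {π ^ (2 * e + 1)})ˣ)
  rw [card_addunits, card_roots hπ hu hu'] at hS
  let φ : Additive (B ⧸ Ideal.span {π ^ (2 * e + 1)})ˣ → B := fun x =>
    (Ideal.Quotient.mk_surjective (I := Ideal.span {π ^ (2 * e + 1)})
      ((x.toMul : (B ⧸ Ideal.span {π ^ (2 * e + 1)})ˣ) : B ⧸ Ideal.span {π ^ (2 * e + 1)})).choose
  have hφ : ∀ x, Ideal.Quotient.mk (Ideal.span {π ^ (2 * e + 1)}) (φ x) =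
      ((x.toMul : (B ⧸ Ideal.span {π ^ (2 * e + 1)})ˣ) : B ⧸ Ideal.span {π ^ (2 * e + 1)}) :=
    fun x => (Ideal.Quotient.mk_surjective (I := Ideal.span {π ^ (2 * e + 1)}) _).choose_spec
  have hinj : Function.Injective φ := by
    intro x y hxy
    have h1 := hφ x
    rw [hxy, hφ y] at h1
    apply Additive.toMul.injective
    exact (Units.ext h1).symm
  refine ⟨S.image φ, ?_, ?_, ?_⟩
  · rw [Finset.card_image_of_injective _ hinj, hS]
  · intro x hx
    obtain ⟨a, -, rfl⟩ := Finset.mem_image.1 hx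
    rintro hd
    have h1 : IsUnit (Ideal.Quotient.mk (Ideal.span {π ^ (2 * e + 1)}) (φ a)) := by
      rw [hφ]; exact Units.isUnit _
    obtain ⟨t, ht⟩ := hd
    rw [ht, map_mul] at h1
    have h2 := isUnit_of_mul_isUnit_left h1
    obtain ⟨y', hy'⟩ := h2.exists_right_inv
    obtain ⟨y, rfl⟩ := Ideal.Quotient.mk_surjective y'
    rw [← map_mul, ← map_one (Ideal.Quotient.mk _), Ideal.Quotient.mk_eq_mk_iff_sub_mem,
      Ideal.mem_span_singleton] at hy'
    apply hπ.not_unit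
    rw [isUnit_iff_dvd_one]
    have h3 : π ∣ π * y - 1 := (dvd_pow_self π (by omega)).trans hy'
    have h4 := (dvd_sub_right (dvd_mul_right π y)).1 h3
    exact h4
  · intro x hx y hy hxy
    obtain ⟨a, ha, rfl⟩ := Finset.mem_image.1 hx
    obtain ⟨b, hb, rfl⟩ := Finset.mem_image.1 hy
    obtain ⟨s, hs⟩ := hxy
    congr 1
    apply hS' a ha b hb
    have h1 : Ideal.Quotient.mk (Ideal.span {π ^ (2 * e + 1)}) (φ a) *
        Ideal.Quotient.mk _ (φ b) = Ideal.Quotient.mk _ s * Ideal.Quotient.mk _ s := by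
      rw [← map_mul, ← map_mul, Ideal.Quotient.mk_eq_mk_iff_sub_mem, Ideal.mem_span_singleton,
        ← pow_two]
      exact hs
    rw [hφ, hφ] at h1
    have h2 : IsUnit (Ideal.Quotient.mk (Ideal.span {π ^ (2 * e + 1)}) s) := by
      apply isUnit_of_mul_isUnit_left (y := Ideal.Quotient.mk _ s)
      rw [← h1]
      exact (Units.isUnit _).mul (Units.isUnit _)
    refine ⟨Additive.ofMul (h2.unit * (a.toMul)⁻¹), ?_⟩
    apply Additive.toMul.injective
    show b.toMul / a.toMul = (h2.unit * (a.toMul)⁻¹) * (h2.unit * (a.toMul)⁻¹)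
    have h3 : a.toMul * b.toMul = h2.unit * h2.unit := Units.ext h1
    rw [div_eq_mul_inv, mul_mul_mul_comm, ← h3, mul_comm a.toMul b.toMul, mul_assoc,
      mul_inv_cancel_left]

end ring

end Pool.Agent.H10PR
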