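import Pool.Agent.H10PR.Ord
import Pool.Agent.H10PR.Ring

/-!
# The filtration of the group of points near infinity

Project PR (helper68), part TWOI, by helper10.
-/

set_option autoImplicit false
set_option linter.all false

open scoped Classical

noncomputable section

namespace Pool.Agent.H10PR

section field

variable {K : Type} [Field K] {a b : K}

theorem two_sums {P Q : G a b} {x₁ y₁ x₂ y₂ : K} (hP : At P x₁ y₁) (hQ : At Q x₂ y₂)
    (hx : x₁ ≠ x₂) : ∃ A B y₃ y₄, At (P + Q) A y₃ ∧ At (P - Q) B y₄ ∧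
      A * B * (x₁ - x₂) ^ 2 = (x₁ * x₂ - a) ^ 2 - 4 * b * (x₁ + x₂) ∧
      (A + B) * (x₁ - x₂) ^ 2 = 2 * ((x₁ + x₂) * (a + x₁ * x₂) + 2 * b) ∧
      B * (x₁ - x₂) ^ 2 = (y₁ + y₂) ^ 2 - (x₁ + x₂) * (x₁ - x₂) ^ 2 := by
  obtain ⟨y₃, h3⟩ := at_add hP hQ hx
  obtain ⟨y₄, h4⟩ := at_add hP hQ.neg hx
  rw [← sub_eq_add_neg] at h4
  have hD : x₁ - x₂ ≠ 0 := sub_ne_zero.2 hx
  have e1 := hP.eq
  have e2 := hQ.eq
  set l := (y₁ - y₂) / (x₁ - x₂) with hl
  set l' := (y₁ - -y₂) / (x₁ - x₂) with hl'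
  have k1 : l * (x₁ - x₂) = y₁ - y₂ := div_mul_cancel₀ _ hD
  have k2 : l' * (x₁ - x₂) = y₁ - -y₂ := div_mul_cancel₀ _ hD
  have k3 : l * l' * (x₁ - x₂) = x₁ ^ 2 + x₁ * x₂ + x₂ ^ 2 + a := by
    apply mul_right_cancel₀ hD
    have : l * l' * (x₁ - x₂) * (x₁ - x₂) = (l * (x₁ - x₂)) * (l' * (x₁ - x₂)) := by ring
    rw [this, k1, k2]
    linear_combination e1 - e2
  have k4 : l ^ 2 * (x₁ - x₂) ^ 2 = (y₁ - y₂) ^ 2 := by rw [← mul_pow, k1]
  have k5 : l' ^ 2 * (x₁ - x₂) ^ 2 = (y₁ + y₂) ^ 2 := by rw [← mul_pow, k2]; ring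
  refine ⟨_, _, y₃, y₄, h3, h4, ?_, ?_, ?_⟩
  · have : (l ^ 2 - x₁ - x₂) * (l' ^ 2 - x₁ - x₂) * (x₁ - x₂) ^ 2 =
        (l * l' * (x₁ - x₂)) ^ 2 - (x₁ + x₂) * (l ^ 2 * (x₁ - x₂) ^ 2 + l' ^ 2 * (x₁ - x₂) ^ 2) +
          (x₁ + x₂) ^ 2 * (x₁ - x₂) ^ 2 := by ring
    rw [this, k3, k4, k5]
    linear_combination (-2) * (x₁ + x₂) * e1 - 2 * (x₁ + x₂) * e2
  · have : (l ^ 2 - x₁ - x₂ + (l' ^ 2 - x₁ - x₂)) * (x₁ - x₂) ^ 2 =
        l ^ 2 * (x₁ - x₂) ^ 2 + l' ^ 2 * (x₁ - x₂) ^ 2 - 2 * (x₁ + x₂) * (x₁ - x₂) ^ 2 := by ring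
    rw [this, k4, k5]
    linear_combination 2 * e1 + 2 * e2
  · have : (l' ^ 2 - x₁ - x₂) * (x₁ - x₂) ^ 2 =
        l' ^ 2 * (x₁ - x₂) ^ 2 - (x₁ + x₂) * (x₁ - x₂) ^ 2 := by ring
    rw [this, k5]

theorem dbl_x (h2 : (2 : K) ≠ 0) {P : G a b} {x y : K} (hP : At P x y) (hy : y ≠ 0) :
    ∃ X Y, At (P + P) X Y ∧ X * (2 * y) ^ 2 = x ^ 4 + (-2 * a * x ^ 2 - 8 * b * x + a ^ 2) := by
  obtain ⟨y₃, h3⟩ := at_dbl h2 hP hy
  refine ⟨_, y₃, h3, ?_⟩
  have hD : 2 * y ≠ 0 := mul_ne_zero h2 hy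
  set l := (3 * x ^ 2 + a) / (2 * y) with hl
  have k1 : l * (2 * y) = 3 * x ^ 2 + a := div_mul_cancel₀ _ hD
  have : (l ^ 2 - 2 * x) * (2 * y) ^ 2 = (l * (2 * y)) ^ 2 - 8 * x * y ^ 2 := by ring
  rw [this, k1]
  linear_combination (-8 * x) * hP.eq

end field

variable {O K : Type} [CommRing O] [IsDomain O] [Field K] [Algebra O K] [IsFractionRing O K]
  {π : O} {e : ℕ} {a b : O}

theorem Ge.ofNat (n : ℕ) : Ge K π 0 (n : K) := by
  have := ge_alg (K := K) (π := π) (n : O)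
  rwa [map_natCast] at this

theorem Ge.mul0 (hπ : algebraMap O K π ≠ 0) {n : ℤ} {x y : K} (h : Ge K π 0 x)
    (h' : Ge K π n y) : Ge K π n (x * y) := by
  have := Ge.mul hπ h h'
  rwa [zero_add] at this

namespace CD

variable (h : CD O π e) (hf : ∀ c : O, ¬ π ∣ c ^ 3 + a * c + b)

include h

theorem two0 : (2 : K) ≠ 0 := h.ne0 h.twoE

include hf

/-- integral points and points near infinity -/
theorem pt_cases {P : G (algebraMap O K a) (algebraMap O K b)} {x y : K} (hP : At P x y) :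
    (∃ c d : O, x = algebraMap O K c ∧ y = algebraMap O K d ∧ ¬ π ∣ d) ∨
    (∃ m : ℤ, 1 ≤ m ∧ Eq' K π (-2 * m) x ∧ Eq' K π (-3 * m) y) := by
  have hy := hP.eq
  rcases h.cases 0 x with h1 | ⟨m, hm, h1⟩
  · left
    obtain ⟨c, rfl⟩ := h1.int
    have h2 : Eq' K π 0 (y ^ 2) := by
      rw [hy, ← map_pow, ← map_mul, ← map_add, ← map_add]
      exact eq_alg (hf c)
    have hy0 : y ≠ 0 := by
      rintro rfl
      exact h.ne0 h2 (by ring)
    obtain ⟨k, hk⟩ := h.exE hy0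
    have h3 := h.eqE h2 (h.powE hk 2)
    have h4 : k = 0 := by push_cast at h3; omega
    subst h4
    obtain ⟨d, hd, h5⟩ := hk
    exact ⟨c, d, rfl, by rw [h5, zpow_zero, one_mul], hd⟩
  · right
    have h2 : Eq' K π (3 * m) (y ^ 2) := by
      rw [hy, add_assoc]
      refine Eq'.add h.π0 (show 3 * m < m by omega) ?_ ?_
      · exact h.powE h1 3
      · exact (Ge.mul0 h.π0 (ge_alg a) h1.ge).add (Ge.mono h.π0 (show m ≤ 0 by omega) (ge_alg b))
    have hy0 : y ≠ 0 := by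
      rintro rfl
      exact h.ne0 h2 (by ring)
    obtain ⟨k, hk⟩ := h.exE hy0
    have h3 := h.eqE h2 (h.powE hk 2)
    push_cast at h3
    have e1 : -2 * (m - k) = m := by omega
    have e2 : -3 * (m - k) = k := by omega
    exact ⟨m - k, by omega, by rw [e1]; exact h1, by rw [e2]; exact hk⟩

theorem ypt {P : G (algebraMap O K a) (algebraMap O K b)} {x y : K} (hP : At P x y) : y ≠ 0 := by
  rcases h.pt_cases hf hP with ⟨c, d, -, h1, hd⟩ | ⟨m, -, -, h1⟩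
  · rw [h1, Ne, FaithfulSMul.algebraMap_eq_zero_iff]
    rintro rfl
    exact hd (dvd_zero _)
  · exact h.ne0 h1

theorem dblE
    {P : G (algebraMap O K a) (algebraMap O K b)} {x y : K} (hP : At P x y) {m : ℤ} (hm : 1 ≤ m)
    (hx : Eq' K π (-2 * m) x) (hy : Eq' K π (-3 * m) y) :
    ∃ X Y, At (P + P) X Y ∧ Eq' K π (-2 * (m + e)) X := by
  obtain ⟨X, Y, h1, h2⟩ := dbl_x h.two0 hP (h.ypt hf hP)
  refine ⟨X, Y, h1, ?_⟩
  have h3 : Eq' K π (4 * (-2 * m)) (x ^ 4 + (-2 * algebraMap O K a * x ^ 2 -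
      8 * algebraMap O K b * x + algebraMap O K a ^ 2)) := by
    refine Eq'.add h.π0 (show 4 * (-2 * m) < -4 * m by omega) (h.powE hx 4) ?_
    refine ((Ge.mul0 h.π0 ?_ ?_).sub (Ge.mul0 h.π0 ?_ ?_)).add ?_
    · exact (Ge.mul0 h.π0 (Ge.ofNat 2).neg (ge_alg a))
    · exact Ge.mono h.π0 (by push_cast; omega) (hx.ge.pow h.π0 2)
    · exact (Ge.mul0 h.π0 (Ge.ofNat 8) (ge_alg b))
    · exact Ge.mono h.π0 (by omega) hx.ge
    · exact Ge.mono h.π0 (show -4 * m ≤ 0 by omega) (by rw [← map_pow]; exact ge_alg _)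
  have h4 : Eq' K π (2 * (e + -3 * m)) ((2 * y) ^ 2) := h.powE (h.mulE h.twoE hy) 2
  have h5 : X = (x ^ 4 + (-2 * algebraMap O K a * x ^ 2 -
      8 * algebraMap O K b * x + algebraMap O K a ^ 2)) / (2 * y) ^ 2 := by
    rw [eq_div_iff (h.ne0 h4), h2]
  rw [h5]
  have h6 := h.divE h3 h4
  have e1 : 4 * (-2 * m) - 2 * (e + -3 * m) = -2 * (m + e) := by ring
  rwa [e1] at h6

/-- sums of points near infinity -/
theorem sumE {P Q : G (algebraMap O K a) (algebraMap O K b)} {x₁ y₁ x₂ y₂ : K}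
    (hP : At P x₁ y₁) (hQ : At Q x₂ y₂) (hx : x₁ ≠ x₂) {m₁ m₂ m : ℤ} (hm : 1 ≤ m) (hm₁ : m ≤ m₁)
    (hm₂ : m ≤ m₂) (h1 : Eq' K π (-2 * m₁) x₁) (h2 : Eq' K π (-2 * m₂) x₂) {X Y : K}
    (hPQ : At (P + Q) X Y) : ∃ m₃, m ≤ m₃ ∧ Eq' K π (-2 * m₃) X := by
  have he := h.he
  by_contra hno
  have hA : Ge K π (-2 * m + 1) X := by
    rcases h.pt_cases hf hPQ with ⟨c, d, h3, -, -⟩ | ⟨k, hk, h3, -⟩
    · rw [h3]
      exact Ge.mono h.π0 (by omega) (ge_alg c)
    · refine Ge.mono h.π0 ?_ h3.ge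
      by_contra hlt
      exact hno ⟨k, by omega, h3⟩
  obtain ⟨A, B, y₃, y₄, h3, h4, h5, h6, -⟩ := two_sums hP hQ hx
  obtain rfl := (h3.inj hPQ).1
  obtain ⟨M, hM1, hM2, hM3⟩ : ∃ M : ℤ, m₁ ≤ M ∧ m₂ ≤ M ∧ m + M ≤ m₁ + m₂ := by
    rcases le_total m₁ m₂ with h7 | h7
    · exact ⟨m₂, h7, le_refl _, by omega⟩
    · exact ⟨m₁, le_refl _, h7, by omega⟩
  have g1 : Ge K π (-2 * M) x₁ := Ge.mono h.π0 (by omega) h1.ge
  have g2 : Ge K π (-2 * M) x₂ := Ge.mono h.π0 (by omega) h2.ge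
  have gD : Ge K π (2 * (-2 * M)) ((x₁ - x₂) ^ 2) := (g1.sub g2).pow h.π0 2
  have h12 : Eq' K π (-2 * m₁ + -2 * m₂) (x₁ * x₂) := h.mulE h1 h2
  have hN : Eq' K π (2 * (-2 * m₁ + -2 * m₂)) ((x₁ * x₂ - algebraMap O K a) ^ 2 -
      4 * algebraMap O K b * (x₁ + x₂)) := by
    rw [sub_eq_add_neg _ (4 * algebraMap O K b * (x₁ + x₂)), sub_eq_add_neg (x₁ * x₂)]
    refine Eq'.add h.π0 (show 2 * (-2 * m₁ + -2 * m₂) < -2 * M by omega)
      (h.powE (Eq'.add h.π0 (show -2 * m₁ + -2 * m₂ < 0 by omega) h12 (ge_alg a).neg) 2) ?_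
    exact (Ge.mul0 h.π0 (Ge.mul0 h.π0 (Ge.ofNat 4) (ge_alg b)) (g1.add g2)).neg
  rw [← h5] at hN
  have gS : Ge K π (e + (-2 * M + (-2 * m₁ + -2 * m₂))) ((A + B) * (x₁ - x₂) ^ 2) := by
    rw [h6]
    refine Ge.mul h.π0 h.twoE.ge ((Ge.mul h.π0 (g1.add g2) ?_).add ?_)
    · exact (Ge.mono h.π0 (by omega) (ge_alg a)).add h12.ge
    · exact Ge.mono h.π0 (by omega) (Ge.mul0 h.π0 (Ge.ofNat 2) (ge_alg b))
  have gA : Ge K π (-2 * m + 1 + 2 * (-2 * M)) (A * (x₁ - x₂) ^ 2) := Ge.mul h.π0 hA gD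
  have gB : Ge K π (-2 * M + (-2 * m₁ + -2 * m₂) + 1) (B * (x₁ - x₂) ^ 2) := by
    have e1 : B * (x₁ - x₂) ^ 2 = (A + B) * (x₁ - x₂) ^ 2 - A * (x₁ - x₂) ^ 2 := by ring
    rw [e1]
    exact (Ge.mono h.π0 (by omega) gS).sub (Ge.mono h.π0 (by omega) gA)
  have gAB := Ge.mul h.π0 hA gB
  rw [← mul_assoc] at gAB
  have := h.leE hN gAB
  omega

/-- differences of points which are close to each other modulo the next step -/
theorem diffE {P Q : G (algebraMap O K a) (algebraMap O K b)} {x₁ y₁ x₂ y₂ : K}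
    (hP : At P x₁ y₁) (hQ : At Q x₂ y₂) {m : ℤ} (hm : 1 ≤ m)
    (h1 : Eq' K π (-2 * m) x₁) (h2 : Eq' K π (-2 * m) x₂) (h12 : Eq' K π (-2 * m) (x₁ - x₂))
    {X Y : K} (hPQ : At (P - Q) X Y) : Eq' K π (-2 * m) X := by
  have hx : x₁ ≠ x₂ := by
    intro h0
    exact h.ne0 h12 (sub_eq_zero.2 h0)
  obtain ⟨A, B, y₃, y₄, h3, h4, h5, -⟩ := two_sums hP hQ hx
  obtain rfl := (h4.inj hPQ).1
  obtain ⟨k, hk, hA⟩ := h.sumE hf hP hQ hx hm le_rfl le_rfl h1 h2 h3
  have h4' := h4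
  rw [sub_eq_add_neg] at h4'
  obtain ⟨l, hl, hB⟩ := h.sumE hf hP hQ.neg hx hm le_rfl le_rfl h1 h2 h4'
  have hN : Eq' K π (2 * (-2 * m + -2 * m)) ((x₁ * x₂ - algebraMap O K a) ^ 2 -
      4 * algebraMap O K b * (x₁ + x₂)) := by
    rw [sub_eq_add_neg _ (4 * algebraMap O K b * (x₁ + x₂)), sub_eq_add_neg (x₁ * x₂)]
    refine Eq'.add h.π0 (show 2 * (-2 * m + -2 * m) < -2 * m by omega)
      (h.powE (Eq'.add h.π0 (show -2 * m + -2 * m < 0 by omega) (h.mulE h1 h2) (ge_alg a).neg) 2) ?_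
    exact (Ge.mul0 h.π0 (Ge.mul0 h.π0 (Ge.ofNat 4) (ge_alg b)) (h1.ge.add h2.ge)).neg
  rw [← h5] at hN
  have h6 := h.eqE hN (h.mulE (h.mulE hA hB) (h.powE h12 2))
  push_cast at h6
  have e1 : l = m := by omega
  rw [← e1]
  exact hB

/-- the subgroup of the points near infinity -/
def En (K : Type) [Field K] [Algebra O K] [IsFractionRing O K] (n : ℕ) : AddSubgroup (G (algebraMap O K a) (algebraMap O K b)) where
  carrier := {P | ∀ x y, At P x y → ∃ m : ℤ, 1 ≤ m ∧ n ≤ m ∧ Eq' K π (-2 * m) x}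
  zero_mem' := fun x y hP => absurd rfl hP.ne
  neg_mem' := by
    intro P hP x y hx
    have := hx.neg
    rw [neg_neg] at this
    exact hP _ _ this
  add_mem' := by
    intro P Q hP hQ X Y hPQ
    by_cases hP0 : P = 0
    · rw [hP0, zero_add] at hPQ
      exact hQ _ _ hPQ
    by_cases hQ0 : Q = 0
    · rw [hQ0, add_zero] at hPQ
      exact hP _ _ hPQ
    obtain ⟨x₁, y₁, h1⟩ := exists_at hP0
    obtain ⟨x₂, y₂, h2⟩ := exists_at hQ0
    obtain ⟨m₁, k1, k2, k3⟩ := hP _ _ h1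
    obtain ⟨m₂, l1, l2, l3⟩ := hQ _ _ h2
    by_cases hx : x₁ = x₂
    · subst hx
      rcases h1.same h2 with h3 | h3
      · subst h3
        have hy : Eq' K π (-3 * m₁) y₁ := by
          rcases h.pt_cases hf h1 with ⟨c, d, h4, -, -⟩ | ⟨m, hm, h4, h5⟩
          · have := h.leE k3 (h4 ▸ ge_alg c)
            omega
          · have := h.eqE k3 h4
            have e1 : m₁ = m := by omega
            rw [e1]; exact h5
        obtain ⟨X', Y', h4, h5⟩ := h.dblE hf h1 k1 k3 hy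
        obtain rfl := (h4.inj hPQ).1
        exact ⟨m₁ + e, by omega, by omega, h5⟩
      · rw [h3, neg_add_cancel] at hPQ
        exact absurd rfl hPQ.ne
    · obtain ⟨m₃, h3, h4⟩ := h.sumE hf h1 h2 hx (m := min m₁ m₂) (le_min k1 l1)
        (min_le_left _ _) (min_le_right _ _) k3 l3 hPQ
      have h5 : (1 : ℤ) ≤ min m₁ m₂ := le_min k1 l1
      have h6 : (n : ℤ) ≤ min m₁ m₂ := le_min k2 l2
      exact ⟨m₃, by omega, by omega, h4⟩

theorem mem_En {n : ℕ} {P : G (algebraMap O K a) (algebraMap O K b)} :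
    P ∈ h.En hf K n ↔ ∀ x y, At P x y → ∃ m : ℤ, 1 ≤ m ∧ n ≤ m ∧ Eq' K π (-2 * m) x := Iff.rfl

theorem En_mono {n m : ℕ} (hnm : n ≤ m) : h.En hf K m ≤ h.En hf K n := by
  intro P hP x y hx
  obtain ⟨k, h1, h2, h3⟩ := hP x y hx
  exact ⟨k, h1, by omega, h3⟩

theorem En_dbl {n : ℕ} (P : G (algebraMap O K a) (algebraMap O K b)) (hP : P ∈ h.En hf K n) :
    P + P ∈ h.En hf K (n + e) := by
  by_cases hP0 : P = 0
  · rw [hP0, add_zero]
    exact AddSubgroup.zero_mem _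
  obtain ⟨x, y, hx⟩ := exists_at hP0
  obtain ⟨m, h1, h2, h3⟩ := hP _ _ hx
  have hy : Eq' K π (-3 * m) y := by
    rcases h.pt_cases hf hx with ⟨c, d, h4, -, -⟩ | ⟨m', hm, h4, h5⟩
    · have := h.leE h3 (h4 ▸ ge_alg c)
      omega
    · have := h.eqE h3 h4
      have e1 : m = m' := by omega
      rw [e1]; exact h5
  obtain ⟨X, Y, h4, h5⟩ := h.dblE hf hx h1 h3 hy
  intro X' Y' h6
  obtain rfl := (h4.inj h6).1
  exact ⟨m + e, by omega, by push_cast; omega, h5⟩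

/-- points near infinity with a given coordinate -/
theorem exists_near {j : ℕ} (hj : 2 * e + 1 ≤ 4 * j) {s : O} (hs : ¬ π ∣ s) :
    ∃ (P : G (algebraMap O K a) (algebraMap O K b)) (y : K),
      At P ((algebraMap O K (π ^ j * s) ^ 2)⁻¹) y := by
  have hs0 : s ≠ 0 := by rintro rfl; exact hs (dvd_zero _)
  have ht0 : algebraMap O K (π ^ j * s) ≠ 0 := by
    rw [Ne, FaithfulSMul.algebraMap_eq_zero_iff]
    exact mul_ne_zero (pow_ne_zero _ h.pr.ne_zero) hs0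
  obtain ⟨t, ht⟩ : ∃ t, t = π ^ j * s := ⟨_, rfl⟩
  rw [← ht] at ht0 ⊢
  have hd : π ^ (2 * e + 1) ∣ t ^ 4 := by
    rw [ht, mul_pow, ← pow_mul]
    exact ((pow_dvd_pow π (by omega)).trans (dvd_mul_right _ _))
  have hd1 : π ∣ t ^ 4 := (dvd_pow_self π (by omega)).trans hd
  have hnd : ¬ π ∣ 1 + a * t ^ 4 + b * t ^ 6 := by
    intro h1
    apply h.pr.not_unit
    rw [isUnit_iff_dvd_one]
    have e1 : (1 : O) = (1 + a * t ^ 4 + b * t ^ 6) - t ^ 4 * (a + b * t ^ 2) := by ring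
    rw [e1]
    exact dvd_sub h1 (Dvd.dvd.mul_right hd1 _)
  have hsq : IsSquare (1 + a * t ^ 4 + b * t ^ 6) := by
    refine h.hens (s := 1) hnd ?_
    have e1 : (1 + a * t ^ 4 + b * t ^ 6) - 1 ^ 2 = t ^ 4 * (a + b * t ^ 2) := by ring
    rw [e1]
    exact Dvd.dvd.mul_right hd _
  obtain ⟨r, hr⟩ := hsq
  have hr' := congrArg (algebraMap O K) hr
  simp only [map_add, map_mul, map_pow, map_one] at hr'
  have hr0 : algebraMap O K r ≠ 0 := by
    intro h0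
    rw [FaithfulSMul.algebraMap_eq_zero_iff] at h0
    subst h0
    apply hnd
    rw [hr, mul_zero]
    exact dvd_zero _
  have hy : (algebraMap O K r / algebraMap O K t ^ 3) ^ 2 = ((algebraMap O K t ^ 2)⁻¹) ^ 3 +
      algebraMap O K a * (algebraMap O K t ^ 2)⁻¹ + algebraMap O K b := by
    field_simp
    linear_combination -hr'
  obtain ⟨P, hP⟩ := exists_pt h.two0 (div_ne_zero hr0 (pow_ne_zero 3 ht0)) hy
  exact ⟨P, _, hP⟩

theorem near_E {j : ℕ} {s : O} (hs : ¬ π ∣ s) :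
    Eq' K π (-2 * j) ((algebraMap O K (π ^ j * s) ^ 2)⁻¹) := by
  have h1 : Eq' K π j (algebraMap O K (π ^ j * s)) := ⟨s, hs, by rw [map_mul, map_pow, zpow_natCast]⟩
  have h2 := h.invE (h.powE h1 2)
  have e1 : -(((2 : ℕ) : ℤ) * j) = -2 * j := by push_cast; ring
  rwa [e1] at h2

theorem near_sub {j : ℕ} {s t : O} (hs : ¬ π ∣ s) (ht : ¬ π ∣ t) (hst : ¬ π ∣ s - t) :
    Eq' K π (-2 * j) ((algebraMap O K (π ^ j * s) ^ 2)⁻¹ - (algebraMap O K (π ^ j * t) ^ 2)⁻¹) := by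
  obtain ⟨u, hu, h2⟩ := h.two
  have hp2 : π ∣ 2 := by
    rw [h2]
    exact Dvd.dvd.mul_right (dvd_pow_self π (by have := h.he; omega)) _
  have h3 : ¬ π ∣ s + t := by
    intro h4
    apply hst
    have e1 : s - t = s + t - 2 * t := by ring
    rw [e1]
    exact dvd_sub h4 (Dvd.dvd.mul_right hp2 _)
  have h4 : Eq' K π (2 * j) (algebraMap O K (π ^ j * t) ^ 2 - algebraMap O K (π ^ j * s) ^ 2) := by
    refine ⟨(s - t) * -(s + t), ?_, ?_⟩
    · intro h5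
      rcases h.pr.dvd_or_dvd h5 with h6 | h6
      · exact hst h6
      · exact h3 ((dvd_neg).1 h6)
    · have e1 : algebraMap O K π ^ (2 * (j : ℤ)) = algebraMap O K (π ^ j) ^ 2 := by
        rw [map_pow, ← pow_mul, mul_comm j 2, ← zpow_natCast]
        norm_num
      rw [e1]
      simp only [map_mul, map_neg, map_add, map_sub]
      ring
  have hs1 : Eq' K π j (algebraMap O K (π ^ j * s)) := ⟨s, hs, by rw [map_mul, map_pow, zpow_natCast]⟩
  have ht1 : Eq' K π j (algebraMap O K (π ^ j * t)) := ⟨t, ht, by rw [map_mul, map_pow, zpow_natCast]⟩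
  have h5 := h.divE h4 (h.mulE (h.powE hs1 2) (h.powE ht1 2))
  have e2 : 2 * (j : ℤ) - (((2 : ℕ) : ℤ) * j + ((2 : ℕ) : ℤ) * j) = -2 * j := by push_cast; ring
  rw [e2] at h5
  have hs2 := h.ne0 hs1
  have ht2 := h.ne0 ht1
  have e3 : (algebraMap O K (π ^ j * s) ^ 2)⁻¹ - (algebraMap O K (π ^ j * t) ^ 2)⁻¹ =
      (algebraMap O K (π ^ j * t) ^ 2 - algebraMap O K (π ^ j * s) ^ 2) /
        (algebraMap O K (π ^ j * s) ^ 2 * algebraMap O K (π ^ j * t) ^ 2) := by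
    field_simp
  rw [e3]
  exact h5

/-- the successive quotients are large -/
theorem card_step {j : ℕ} (hj : 2 * e + 1 ≤ 4 * j) [(h.En hf K (j + 1)).FiniteIndex] :
    Nat.card (O ⧸ Ideal.span {π}) ≤ (h.En hf K (j + 1)).relIndex (h.En hf K j) := by
  have hex : ∀ c : O ⧸ Ideal.span {π}, ∃ P : G (algebraMap O K a) (algebraMap O K b),
      (c = 0 → P = 0) ∧ (c ≠ 0 → ∃ s : O, Ideal.Quotient.mk _ s = c ∧ ¬ π ∣ s ∧
        ∃ y, At P ((algebraMap O K (π ^ j * s) ^ 2)⁻¹) y) := by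
    intro c
    by_cases hc : c = 0
    · exact ⟨0, fun _ => rfl, fun h => absurd hc h⟩
    · obtain ⟨s, rfl⟩ := Ideal.Quotient.mk_surjective c
      have hs : ¬ π ∣ s := by
        rw [Ideal.Quotient.eq_zero_iff_mem, Ideal.mem_span_singleton] at hc
        exact hc
      obtain ⟨P, y, hP⟩ := h.exists_near (K := K) hf hj hs
      exact ⟨P, fun h => absurd h hc, fun _ => ⟨s, rfl, hs, y, hP⟩⟩
  choose pt hpt0 hpt using hex
  have hE : ∀ c, pt c ∈ h.En hf K j := by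
    intro c
    by_cases hc : c = 0
    · rw [hpt0 c hc]
      exact AddSubgroup.zero_mem _
    · obtain ⟨s, -, hs, y, hP⟩ := hpt c hc
      intro x' y' hx'
      obtain rfl := (hP.inj hx').1
      exact ⟨j, by omega, le_refl _, h.near_E hf hs⟩
  have hne : ∀ c d, c ≠ d → pt c - pt d ∉ h.En hf K (j + 1) := by
    have hne0 : ∀ c, c ≠ 0 → pt c ∉ h.En hf K (j + 1) := by
      intro c hc hmem
      obtain ⟨s, -, hs, y, hP⟩ := hpt c hc
      obtain ⟨m, h1, h2, h3⟩ := hmem _ _ hP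
      have := h.eqE h3 (h.near_E hf hs)
      push_cast at h2
      omega
    intro c d hcd hmem
    by_cases hc : c = 0
    · rw [hpt0 c hc, zero_sub] at hmem
      refine hne0 d (fun hd => hcd (hc.trans hd.symm)) ?_
      have := AddSubgroup.neg_mem _ hmem
      rwa [neg_neg] at this
    by_cases hd : d = 0
    · rw [hpt0 d hd, sub_zero] at hmem
      exact hne0 c hc hmem
    obtain ⟨s, hs1, hs, y, hP⟩ := hpt c hc
    obtain ⟨t, ht1, ht, z, hQ⟩ := hpt d hd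
    have hst : ¬ π ∣ s - t := by
      intro h1
      apply hcd
      rw [← hs1, ← ht1, Ideal.Quotient.mk_eq_mk_iff_sub_mem, Ideal.mem_span_singleton]
      exact h1
    have h12 := h.near_sub (K := K) (j := j) hf hs ht hst
    have h0 : pt c - pt d ≠ 0 := by
      intro h0
      rw [sub_eq_zero] at h0
      rw [h0] at hP
      have := (hP.inj hQ).1
      exact h.ne0 h12 (sub_eq_zero.2 this)
    obtain ⟨X, Y, hXY⟩ := exists_at h0
    have h3 := h.diffE hf hP hQ (show (1 : ℤ) ≤ j by omega) (h.near_E hf hs) (h.near_E hf ht) h12 hXY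
    obtain ⟨m, h4, h5, h6⟩ := hmem _ _ hXY
    have := h.eqE h3 h6
    push_cast at h5
    omega
  rw [AddSubgroup.relIndex, AddSubgroup.index]
  haveI : Finite (h.En hf K j ⧸ (h.En hf K (j + 1)).addSubgroupOf (h.En hf K j)) :=
    AddSubgroup.finite_quotient_of_finiteIndex
  refine Nat.card_le_card_of_injective (fun c => QuotientAddGroup.mk ⟨pt c, hE c⟩) ?_
  intro c d hcd
  by_contra hne'
  have h1 := QuotientAddGroup.eq.1 hcd
  rw [AddSubgroup.mem_addSubgroupOf] at h1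
  refine hne d c (Ne.symm hne') ?_
  have e1 : pt d - pt c = -pt c + pt d := by abel
  rw [e1]
  exact h1

theorem En_fin (n : ℕ) : (h.En hf K n : AddSubgroup (G (algebraMap O K a)
    (algebraMap O K b))).FiniteIndex := by
  haveI := h.fin
  haveI := finite_pow h.pr.ne_zero (e + 4 * n + 1)
  have hex : ∀ P : G (algebraMap O K a) (algebraMap O K b), P ∉ h.En hf K n →
      ∃ (c d : O) (x y : K) (k : ℤ), At P x y ∧ x = algebraMap O K π ^ (-2 * n : ℤ) * algebraMap O K c ∧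
        y = algebraMap O K π ^ (-3 * n : ℤ) * algebraMap O K d ∧ k ≤ 0 ∧ Eq' K π k y := by
    intro P hP
    have hP0 : P ≠ 0 := by
      rintro rfl
      exact hP (AddSubgroup.zero_mem _)
    obtain ⟨x, y, hx⟩ := exists_at hP0
    rcases h.pt_cases hf hx with ⟨c, d, h1, h2, hd⟩ | ⟨m, hm, h1, h2⟩
    · obtain ⟨c', hc'⟩ := Ge.mono h.π0 (show (-2 * n : ℤ) ≤ 0 by omega) (h1 ▸ ge_alg c)
      obtain ⟨d', hd'⟩ := Ge.mono h.π0 (show (-3 * n : ℤ) ≤ 0 by omega) (h2 ▸ ge_alg d)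
      exact ⟨c', d', x, y, 0, hx, hc', hd', le_refl _, h2 ▸ eq_alg hd⟩
    · have hmn : m < n := by
        by_contra hlt
        apply hP
        intro x' y' hx'
        obtain rfl := (hx.inj hx').1
        exact ⟨m, hm, by omega, h1⟩
      obtain ⟨c', hc'⟩ := Ge.mono h.π0 (show (-2 * n : ℤ) ≤ -2 * m by omega) h1.ge
      obtain ⟨d', hd'⟩ := Ge.mono h.π0 (show (-3 * n : ℤ) ≤ -3 * m by omega) h2.ge
      exact ⟨c', d', x, y, -3 * m, hx, hc', hd', by omega, h2⟩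
  choose c d x y k hat hx hy hk hyk using hex
  let Φ : G (algebraMap O K a) (algebraMap O K b) →
      Option ((O ⧸ Ideal.span {π ^ (e + 4 * n + 1)}) × (O ⧸ Ideal.span {π ^ (e + 4 * n + 1)})) :=
    fun P => if hP : P ∈ h.En hf K n then none else
      some (Ideal.Quotient.mk _ (c P hP), Ideal.Quotient.mk _ (d P hP))
  refine fin_index _ Φ ?_
  intro P Q hPQ
  by_cases hP : P ∈ h.En hf K n
  · by_cases hQ : Q ∈ h.En hf K n
    · exact Or.inl (AddSubgroup.sub_mem _ hP hQ)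
    · simp only [Φ, dif_pos hP, dif_neg hQ] at hPQ
      exact absurd hPQ (by simp)
  · by_cases hQ : Q ∈ h.En hf K n
    · simp only [Φ, dif_pos hQ, dif_neg hP] at hPQ
      exact absurd hPQ (by simp)
    · simp only [Φ, dif_neg hP, dif_neg hQ, Option.some.injEq, Prod.mk.injEq,
        Ideal.Quotient.mk_eq_mk_iff_sub_mem, Ideal.mem_span_singleton] at hPQ
      obtain ⟨⟨c', hc'⟩, ⟨d', hd'⟩⟩ := hPQ
      by_cases hxx : x P hP = x Q hQ
      · have h1 := hat P hP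
        rw [hxx] at h1
        rcases h1.same (hat Q hQ) with h2 | h2
        · left; rw [h2, sub_self]; exact AddSubgroup.zero_mem _
        · right; rw [h2, neg_add_cancel]; exact AddSubgroup.zero_mem _
      · left
        obtain ⟨A, B, y₃, y₄, -, h4, -, -, h5⟩ := two_sums (hat P hP) (hat Q hQ) hxx
        have gx : Ge K π (e + 2 * n + 1) (x P hP - x Q hQ) := by
          refine ⟨c', ?_⟩
          rw [hx P hP, hx Q hQ, ← mul_sub, ← map_sub, hc', map_mul, map_pow, ← mul_assoc,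
            ← zpow_natCast, ← zpow_add₀ h.π0]
          congr 2
          push_cast
          ring
        have gy : Ge K π (e + n + 1) (y P hP - y Q hQ) := by
          refine ⟨d', ?_⟩
          rw [hy P hP, hy Q hQ, ← mul_sub, ← map_sub, hd', map_mul, map_pow, ← mul_assoc,
            ← zpow_natCast, ← zpow_add₀ h.π0]
          congr 2
          push_cast
          ring
        have hk0 := hk P hP
        have e1 : Eq' K π (e + k P hP) (y P hP + y Q hQ) := by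
          have e2 : y P hP + y Q hQ = 2 * y P hP + -(y P hP - y Q hQ) := by ring
          rw [e2]
          exact Eq'.add h.π0 (show (e : ℤ) + k P hP < e + n + 1 by omega)
            (h.mulE h.twoE (hyk P hP)) gy.neg
        obtain ⟨l, hl⟩ := h.exE (sub_ne_zero.2 hxx)
        have hl' := h.leE hl gx
        have gs : Ge K π (-2 * n) (x P hP + x Q hQ) :=
          Ge.add ⟨_, hx P hP⟩ ⟨_, hx Q hQ⟩
        have e3 : Eq' K π (2 * (e + k P hP)) (B * (x P hP - x Q hQ) ^ 2) := by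
          rw [h5, sub_eq_add_neg]
          exact Eq'.add h.π0 (show 2 * (e + k P hP) < -2 * n + 2 * (e + 2 * n + 1) by omega)
            (h.powE e1 2) (Ge.mul h.π0 gs (gx.pow h.π0 2)).neg
        have e4 : Eq' K π (2 * (e + k P hP) - 2 * l) B := by
          have e5 : B = B * (x P hP - x Q hQ) ^ 2 / (x P hP - x Q hQ) ^ 2 := by
            rw [mul_div_cancel_right₀]
            exact pow_ne_zero 2 (sub_ne_zero.2 hxx)
          rw [e5]
          exact h.divE e3 (h.powE hl 2)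
        intro X Y hXY
        obtain rfl := (h4.inj hXY).1
        refine ⟨l - (e + k P hP), by omega, by omega, ?_⟩
        have e6 : -2 * (l - (e + k P hP)) = 2 * (e + k P hP) - 2 * l := by ring
        rw [e6]
        exact e4

/-- There are at least `q ^ e` points modulo two. -/
theorem many : ∃ S : Finset (G (algebraMap O K a) (algebraMap O K b)),
    Nat.card (O ⧸ Ideal.span {π}) ^ e ≤ S.card ∧
    ∀ P ∈ S, ∀ Q ∈ S, (∃ R, Q - P = R + R) → P = Q := by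
  haveI : ∀ n, (h.En hf K n : AddSubgroup (G (algebraMap O K a)
    (algebraMap O K b))).FiniteIndex := fun n => h.En_fin hf n
  obtain ⟨S, hS, hS'⟩ := grp_big (h.En hf K (e + 1 + e) : AddSubgroup (G (algebraMap O K a)
    (algebraMap O K b))) (h.En hf K (e + 1)) (fun P hP => h.En_dbl hf P hP)
  refine ⟨S, le_trans ?_ hS, hS'⟩
  have key : ∀ i : ℕ, Nat.card (O ⧸ Ideal.span {π}) ^ i ≤
      (h.En hf K (e + 1 + i) : AddSubgroup (G (algebraMap O K a)
        (algebraMap O K b))).relIndex (h.En hf K (e + 1)) := by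
    intro i
    induction i with
    | zero =>
      rw [pow_zero, add_zero, AddSubgroup.relIndex_self]
    | succ i ih =>
      rw [← add_assoc, ← AddSubgroup.relIndex_mul_relIndex _ (h.En hf K (e + 1 + i)) _
        (h.En_mono hf (Nat.le_succ _)) (h.En_mono hf (by omega)), pow_succ, mul_comm]
      exact Nat.mul_le_mul (h.card_step hf (by omega)) ih
  exact key e

end CD

end Pool.Agent.H10PR
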