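import Pool.Agent.H10PR.Emb
import Pool.Agent.H10PR.Cdw
import Pool.Agent.H68K.PR.Stm

/-!
# Project PR (helper68), part TWOI: the theorem

by helper10 and helper33.
-/

set_option autoImplicit false
set_option linter.all false

open Polynomial IsDedekindDomain NumberField
open scoped Classical

noncomputable section

namespace Pool.Agent.H10PR

open Pool.Agent.N874.JM (LocF)
open Pool.Agent.N783.PF

theorem noroot_mod {O : Type} [CommRing O] [IsDomain O] {π : O} {e : ℕ} (h : CD O π e) {a b : O}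
    (hi : Irreducible ((X ^ 3 + C a * X + C b : O[X]).map (Ideal.Quotient.mk (Ideal.span {π}))))
    (c : O) : ¬ π ∣ c ^ 3 + a * c + b := by
  intro hd
  haveI := h.maxl
  letI := Ideal.Quotient.field (Ideal.span {π})
  have h1 : (((X ^ 3 + C a * X + C b : O[X]).map (Ideal.Quotient.mk (Ideal.span {π})))).IsRoot
      (Ideal.Quotient.mk (Ideal.span {π}) c) := by
    rw [IsRoot.def, eval_map, eval₂_at_apply]
    rw [Ideal.Quotient.eq_zero_iff_mem, Ideal.mem_span_singleton]
    simpa using hd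
  have h2 := degree_eq_one_of_irreducible_of_root hi h1
  have h3 : ((X ^ 3 + C a * X + C b : O[X]).map (Ideal.Quotient.mk (Ideal.span {π}))).natDegree = 3 :=
    cu_map_deg
  rw [degree_eq_natDegree hi.ne_zero, h3] at h2
  exact absurd h2 (by decide)

theorem noroot_K {O K : Type} [CommRing O] [IsDomain O] [Field K] [Algebra O K]
    [IsFractionRing O K] {π : O} {e : ℕ} (h : CD O π e) {a b : O}
    (hf : ∀ c : O, ¬ π ∣ c ^ 3 + a * c + b) (x : K) :
    x ^ 3 + algebraMap O K a * x + algebraMap O K b ≠ 0 := by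
  intro h0
  rcases h.cases 0 x with h1 | ⟨m, hm, h1⟩
  · obtain ⟨c, rfl⟩ := h1.int
    rw [← map_pow, ← map_mul, ← map_add, ← map_add, FaithfulSMul.algebraMap_eq_zero_iff] at h0
    apply hf c
    rw [h0]
    exact dvd_zero _
  · rw [add_assoc] at h0
    refine h.ne0 (m := (3 : ℕ) * m) ?_ h0
    refine Eq'.add h.π0 (show ((3 : ℕ) : ℤ) * m < m by push_cast; omega) (h.powE h1 3) ?_
    exact (Ge.mul0 h.π0 (ge_alg a) h1.ge).add (Ge.mono h.π0 (show m ≤ 0 by omega) (ge_alg b))

/-- a maximal set of inequivalent elements -/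
theorem maximal {L : Type} (U : Set L) (r : L → L → Prop) (N : ℕ) (hr : ∀ x ∈ U, r x x)
    (hs : ∀ x y, r x y → r y x)
    (hN : ∀ S : Finset L, (∀ x ∈ S, x ∈ U) → (∀ x ∈ S, ∀ y ∈ S, r x y → x = y) → S.card ≤ N) :
    ∃ C : Finset L, C.card ≤ N ∧ (∀ x ∈ C, x ∈ U) ∧ ∀ x ∈ U, ∃ c ∈ C, r x c := by
  let good : Finset L → Prop := fun S => (∀ x ∈ S, x ∈ U) ∧ (∀ x ∈ S, ∀ y ∈ S, r x y → x = y)
  have h1 : {n | ∃ S, good S ∧ S.card = n}.Nonempty :=
    ⟨0, ∅, ⟨fun x hx => absurd hx (Finset.notMem_empty x),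
      fun x hx => absurd hx (Finset.notMem_empty x)⟩, rfl⟩
  have h2 : BddAbove {n | ∃ S, good S ∧ S.card = n} := by
    refine ⟨N, ?_⟩
    rintro n ⟨S, hS, rfl⟩
    exact hN S hS.1 hS.2
  obtain ⟨C, hC, hC'⟩ := Nat.sSup_mem h1 h2
  refine ⟨C, hN C hC.1 hC.2, hC.1, ?_⟩
  intro x hx
  by_contra hno
  have hno' : ∀ c ∈ C, ¬ r x c := fun c hc h => hno ⟨c, hc, h⟩
  have hxC : x ∉ C := fun h => hno' x h (hr x hx)
  have h3 : good (insert x C) := by
    refine ⟨?_, ?_⟩
    · intro y hy
      rcases Finset.mem_insert.1 hy with rfl | hy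
      · exact hx
      · exact hC.1 y hy
    · intro y hy z hz hyz
      rcases Finset.mem_insert.1 hy with hy | hy
      · rcases Finset.mem_insert.1 hz with hz | hz
        · rw [hy, hz]
        · exact absurd (hy ▸ hyz) (hno' z hz)
      · rcases Finset.mem_insert.1 hz with hz | hz
        · exact absurd (hs _ _ (hz ▸ hyz)) (hno' y hy)
        · exact hC.2 y hy z hz hyz
  have h4 := le_csSup h2 ⟨insert x C, h3, rfl⟩
  rw [← hC', Finset.card_insert_of_notMem hxC] at h4
  omega

theorem cub_gen {F L : Type} [Field F] [NumberField F] [Field L] [NumberField L] [Algebra F L]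
    {f : (𝓞 F)[X]} {θ : L} (h : IsGen 1 f θ) (h2 : f.coeff 2 = 0) :
    f = X ^ 3 + C (f.coeff 1) * X + C (f.coeff 0) ∧
    Cub (algebraMap (𝓞 F) F (f.coeff 1)) (algebraMap (𝓞 F) F (f.coeff 0)) θ := by
  have h3 : f.coeff 3 = 1 := by
    have := h.mon
    rw [Monic, leadingCoeff, h.deg] at this
    exact this
  have h4 : f = X ^ 3 + C (f.coeff 1) * X + C (f.coeff 0) := by
    conv_lhs => rw [as_sum_range' f 4 (by rw [h.deg]; norm_num)]
    simp only [Finset.sum_range_succ, Finset.sum_range_zero, zero_add, ← C_mul_X_pow_eq_monomial,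
      pow_zero, mul_one, pow_one, h2, h3, C_0, zero_mul, add_zero, C_1, one_mul]
    ring
  refine ⟨h4, ?_, ?_, ?_⟩
  · have h5 := h.root
    rw [fF, h4, Polynomial.map_add, Polynomial.map_add, Polynomial.map_mul, Polynomial.map_pow,
      map_X, map_C, map_C, map_add, map_add, map_mul, map_pow, aeval_X, aeval_C, aeval_C] at h5
    exact h5
  · intro c₀ c₁ c₂ h0
    have h6 := h.basis.linearIndependent
    rw [Fintype.linearIndependent_iff] at h6
    have h7 := h6 (![c₀, c₁, c₂] : Fin (2 * 1 + 1) → F) (by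
      have : ∀ g : Fin 3 → F, ∑ i : Fin (2 * 1 + 1), g i • h.basis i =
          algebraMap F L (g 0) + algebraMap F L (g 1) * θ + algebraMap F L (g 2) * θ ^ 2 := by
        intro g
        have e1 : ∑ i : Fin (2 * 1 + 1), g i • h.basis i = ∑ i : Fin 3, g i • h.basis i := rfl
        rw [e1, Fin.sum_univ_three, h.basis_apply, h.basis_apply, h.basis_apply]
        simp only [Algebra.smul_def]
        norm_num
      rw [this]
      exact h0)
    exact ⟨h7 0, h7 1, h7 2⟩
  · intro z
    obtain ⟨c, hc⟩ := h.gen z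
    refine ⟨c 0, c 1, c 2, ?_⟩
    rw [hc]
    have e1 : ∑ i : Fin (2 * 1 + 1), algebraMap F L (c i) * θ ^ (i : ℕ) =
      ∑ i : Fin 3, algebraMap F L (c i) * θ ^ (i : ℕ) := rfl
    rw [e1, Fin.sum_univ_three]
    norm_num

theorem map_cu {R S : Type} [CommRing R] [CommRing S] (i : R →+* S) (a b : R) :
    (X ^ 3 + C a * X + C b : R[X]).map i = X ^ 3 + C (i a) * X + C (i b) := by
  rw [Polynomial.map_add, Polynomial.map_add, Polynomial.map_mul, Polynomial.map_pow,
    map_X, map_C, map_C]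

/-- from squares to `LocF` -/
theorem locF_of {F K : Type} [Field F] [Field K] [Algebra F K] {f h : F[X]} {a b : K}
    (hfe : f.map (algebraMap F K) = X ^ 3 + C a * X + C b)
    [Fact (Irreducible (X ^ 3 + C a * X + C b : K[X]))] (P : G a b)
    (hs : IsSquare (AdjoinRoot.mk (X ^ 3 + C a * X + C b : K[X]) (h.map (algebraMap F K)) *
      dl (AdjoinRoot.root (X ^ 3 + C a * X + C b : K[X])) P)) :
    LocF K f h := by
  have hθ : Cub a b (AdjoinRoot.root (X ^ 3 + C a * X + C b : K[X])) := cub_adj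
  obtain ⟨z, hz⟩ := hs
  obtain ⟨s, rfl⟩ := AdjoinRoot.mk_surjective z
  by_cases h0 : P = 0
  · refine ⟨[], s, fun p hp => absurd hp List.not_mem_nil, ?_⟩
    rw [hfe, ← AdjoinRoot.mk_eq_zero, map_sub, map_mul, map_pow, List.map_nil, List.prod_nil,
      map_one, sub_eq_zero]
    rw [h0, dl_zero] at hz
    rw [hz, pow_two]
  · obtain ⟨x, y, hx⟩ := exists_at h0
    refine ⟨[(X - C x, C y)], s, ?_, ?_⟩
    · intro p hp
      rw [List.mem_singleton] at hp
      subst hp
      refine ⟨monic_X_sub_C x, ?_, ?_⟩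
      · rw [hfe, (irreducible_X_sub_C x).coprime_iff_not_dvd, dvd_iff_isRoot, IsRoot.def]
        simpa using hθ.noroot x
      · rw [hfe, dvd_iff_isRoot, IsRoot.def]
        simp only [eval_sub, eval_pow, eval_add, eval_mul, eval_C, eval_X]
        rw [hx.eq, sub_self]
    · rw [hfe, ← AdjoinRoot.mk_eq_zero, map_sub, map_mul, map_pow, sub_eq_zero]
      rw [dl_at hx] at hz
      rw [pow_two, ← hz]
      congr 1
      simp only [List.map_cons, List.map_nil, List.prod_cons, List.prod_nil, natDegree_X_sub_C,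
        mul_one, pow_one, map_mul, map_neg, map_one, map_sub, AdjoinRoot.mk_X, AdjoinRoot.mk_C]
      rw [AdjoinRoot.algebraMap_eq]
      ring

theorem twoi : Pool.Agent.H68K.PR.S_TWOI := by
  intro F L _ _ _ _ _ f θ hg h2 w hw2 hirr e he
  obtain ⟨π, hCD, hcard, hir⟩ := cdw F w hw2 e he
  obtain ⟨hfe, hL⟩ := cub_gen hg h2
  set a := f.coeff 1 with ha
  set b := f.coeff 0 with hb
  have hirr' : Irreducible ((X ^ 3 + C a * X + C b : (𝓞 F)[X]).map (Ideal.Quotient.mk w.asIdeal)) := by
    rw [← hfe]; exact hirr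
  have hi := hir a b hirr'
  have hf := noroot_mod hCD hi
  have hK := noroot_K (K := w.adicCompletion F) hCD hf
  haveI : Fact (Irreducible (X ^ 3 + C (algebraMap (w.adicCompletionIntegers F)
      (w.adicCompletion F) (algebraMap (𝓞 F) (w.adicCompletionIntegers F) a)) * X +
      C (algebraMap (w.adicCompletionIntegers F) (w.adicCompletion F) (algebraMap (𝓞 F)
        (w.adicCompletionIntegers F) b)) : (w.adicCompletion F)[X])) := ⟨g_irr _ _ hK⟩
  have hM := cub_adj (a := (algebraMap (w.adicCompletionIntegers F)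
      (w.adicCompletion F) (algebraMap (𝓞 F) (w.adicCompletionIntegers F) a)))
    (b := (algebraMap (w.adicCompletionIntegers F) (w.adicCompletion F) (algebraMap (𝓞 F)
        (w.adicCompletionIntegers F) b)))
  have hM' : Cub (algebraMap F (w.adicCompletion F) (algebraMap (𝓞 F) F a))
    (algebraMap F (w.adicCompletion F) (algebraMap (𝓞 F) F b))
    (AdjoinRoot.root (X ^ 3 + C (algebraMap (w.adicCompletionIntegers F)
      (w.adicCompletion F) (algebraMap (𝓞 F) (w.adicCompletionIntegers F) a)) * X +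
      C (algebraMap (w.adicCompletionIntegers F) (w.adicCompletion F) (algebraMap (𝓞 F)
        (w.adicCompletionIntegers F) b)) : (w.adicCompletion F)[X])) := hM
  set i := emb (algebraMap F (w.adicCompletion F)) hL hM' with hi'
  let r : L → L → Prop := fun α β => ∃ P : G (algebraMap (w.adicCompletionIntegers F)
      (w.adicCompletion F) (algebraMap (𝓞 F) (w.adicCompletionIntegers F) a))
        (algebraMap (w.adicCompletionIntegers F) (w.adicCompletion F) (algebraMap (𝓞 F)
        (w.adicCompletionIntegers F) b)), IsSquare (i α * i β * dl (AdjoinRoot.root _) P)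
  suffices hmax : ∃ C : Finset L, C.card ≤ Ideal.absNorm w.asIdeal ^ e ∧
      (∀ x ∈ C, x ∈ {α : L | α ≠ 0 ∧ IsSquare (Algebra.norm F α)}) ∧
      ∀ x ∈ {α : L | α ≠ 0 ∧ IsSquare (Algebra.norm F α)}, ∃ c ∈ C, r x c by
    obtain ⟨C', hC1, hC2, hC3⟩ := hmax
    refine ⟨C', hC1, hC2, ?_⟩
    intro α hα0 hα
    obtain ⟨c, hc, P, hP⟩ := hC3 α ⟨hα0, hα⟩
    refine ⟨c, hc, fun h hh => ?_⟩
    refine locF_of (a := (algebraMap (w.adicCompletionIntegers F)
      (w.adicCompletion F) (algebraMap (𝓞 F) (w.adicCompletionIntegers F) a)))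
      (b := (algebraMap (w.adicCompletionIntegers F) (w.adicCompletion F) (algebraMap (𝓞 F)
        (w.adicCompletionIntegers F) b))) ?_ P ?_
    · rw [fF, hfe, map_cu, map_cu]
      rfl
    · rw [← map_mul, ← hh, hi', emb_aeval] at hP
      have e1 : AdjoinRoot.mk (X ^ 3 + C (algebraMap (w.adicCompletionIntegers F)
        (w.adicCompletion F) (algebraMap (𝓞 F) (w.adicCompletionIntegers F) a)) * X +
        C (algebraMap (w.adicCompletionIntegers F) (w.adicCompletion F) (algebraMap (𝓞 F)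
        (w.adicCompletionIntegers F) b)) : (w.adicCompletion F)[X])
        (h.map (algebraMap F (w.adicCompletion F))) =
          eval₂ ((algebraMap (w.adicCompletion F) _).comp (algebraMap F (w.adicCompletion F)))
            (AdjoinRoot.root _) h := by
        rw [← AdjoinRoot.aeval_eq, aeval_def, eval₂_map]
      rw [e1]
      exact hP
  refine maximal {α : L | α ≠ 0 ∧ IsSquare (Algebra.norm F α)} r _ ?_ ?_ ?_
  · intro x hx
    exact ⟨0, i x, by rw [dl_zero, mul_one]⟩
  · rintro x y ⟨P, hP⟩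
    exact ⟨P, by rw [mul_comm (i y)]; exact hP⟩
  · intro S hS hS'
    rw [← hcard]
    refine bound ao hCD hi hf hM S (fun α => i α) ?_ ?_
    · intro α hα
      obtain ⟨h1, h2⟩ := hS α hα
      refine ⟨fun h0 => h1 ((map_eq_zero i).1 h0), ?_⟩
      rw [hi', emb_norm]
      exact h2.map _
    · intro α hα β hβ h
      exact hS' α hα β hβ h

end Pool.Agent.H10PR
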