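import Mathlib

/-!
# Classes modulo two in finite abelian groups and in finite quotient rings

Project PR (helper68), part TWOI, by helper10.
-/

set_option autoImplicit false
set_option linter.all false

open Finset
open scoped Classical

namespace Pool.Agent.H10PR

/-! ### Finite abelian groups -/

section grp

variable {Q : Type} [AddCommGroup Q] [Finite Q]

theorem card_quot : Nat.card (Q ⧸ (zsmulAddGroupHom (α := Q) 2).range) =
    Nat.card (zsmulAddGroupHom (α := Q) 2).ker := by
  have h1 := AddSubgroup.card_eq_card_quotient_mul_card_addSubgroup (zsmulAddGroupHom (α := Q) 2).range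
  have h2 := AddSubgroup.card_eq_card_quotient_mul_card_addSubgroup (zsmulAddGroupHom (α := Q) 2).ker
  have h3 : Nat.card (Q ⧸ (zsmulAddGroupHom (α := Q) 2).ker) =
      Nat.card (zsmulAddGroupHom (α := Q) 2).range :=
    Nat.card_congr (QuotientAddGroup.quotientKerEquivRange _).toEquiv
  rw [h3] at h2
  have h4 : 0 < Nat.card (zsmulAddGroupHom (α := Q) 2).range := Nat.card_pos
  rw [h1, mul_comm] at h2
  exact Nat.eq_of_mul_eq_mul_left h4 h2

theorem mem_two {x : Q} : x ∈ (zsmulAddGroupHom (α := Q) 2).range ↔ ∃ z, x = z + z := by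
  constructor
  · rintro ⟨z, rfl⟩
    exact ⟨z, by rw [zsmulAddGroupHom_apply, two_zsmul]⟩
  · rintro ⟨z, rfl⟩
    exact ⟨z, by rw [zsmulAddGroupHom_apply, two_zsmul]⟩

theorem card_ker : Nat.card (zsmulAddGroupHom (α := Q) 2).ker = Nat.card {x : Q // x + x = 0} := by
  refine Nat.card_congr (Equiv.subtypeEquivRight fun x => ?_)
  rw [AddMonoidHom.mem_ker, zsmulAddGroupHom_apply, two_zsmul]

theorem quot_eq {x y : Q} : (QuotientAddGroup.mk x : Q ⧸ (zsmulAddGroupHom (α := Q) 2).range) =
    QuotientAddGroup.mk y ↔ ∃ z, y - x = z + z := by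
  rw [QuotientAddGroup.eq, neg_add_eq_sub, mem_two]

theorem grp_up {ι : Type} (S : Finset ι) (φ : ι → Q)
    (h : ∀ x ∈ S, ∀ y ∈ S, (∃ z, φ y - φ x = z + z) → x = y) :
    S.card ≤ Nat.card {x : Q // x + x = 0} := by
  haveI : Fintype (Q ⧸ (zsmulAddGroupHom (α := Q) 2).range) := Fintype.ofFinite _
  rw [← card_ker, ← card_quot, Nat.card_eq_fintype_card, ← Finset.card_univ]
  refine Finset.card_le_card_of_injOn (fun i => (QuotientAddGroup.mk (φ i) :
    Q ⧸ (zsmulAddGroupHom (α := Q) 2).range)) (fun _ _ => Finset.mem_coe.2 (Finset.mem_univ _)) ?_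
  intro x hx y hy hxy
  exact h x hx y hy (quot_eq.1 hxy)

theorem grp_lo : ∃ S : Finset Q, S.card = Nat.card {x : Q // x + x = 0} ∧
    ∀ x ∈ S, ∀ y ∈ S, (∃ z, y - x = z + z) → x = y := by
  haveI : Fintype (Q ⧸ (zsmulAddGroupHom (α := Q) 2).range) := Fintype.ofFinite _
  refine ⟨Finset.univ.image (Quotient.out : (Q ⧸ (zsmulAddGroupHom (α := Q) 2).range) → Q), ?_, ?_⟩
  · rw [Finset.card_image_of_injective _ Quotient.out_injective, Finset.card_univ,
      ← Nat.card_eq_fintype_card]
    exact card_quot.trans card_ker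
  · intro x hx y hy hxy
    obtain ⟨a, -, rfl⟩ := Finset.mem_image.1 hx
    obtain ⟨b, -, rfl⟩ := Finset.mem_image.1 hy
    have h1 := quot_eq.2 hxy
    have h2 : ∀ c : Q ⧸ (zsmulAddGroupHom (α := Q) 2).range,
        QuotientAddGroup.mk (Quotient.out c) = c := fun c => Quotient.out_eq c
    rw [h2, h2] at h1
    rw [h1]

end grp

/-- Classes modulo two in a group with a subgroup of finite index. -/
theorem grp_big {G : Type} [AddCommGroup G] (H H' : AddSubgroup G) [H.FiniteIndex]
    (h2 : ∀ x ∈ H', x + x ∈ H) : ∃ S : Finset G, H.relIndex H' ≤ S.card ∧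
    ∀ x ∈ S, ∀ y ∈ S, (∃ z, y - x = z + z) → x = y := by
  haveI : Finite (G ⧸ H) := AddSubgroup.finite_quotient_of_finiteIndex
  obtain ⟨S, hS, hS'⟩ := grp_lo (Q := G ⧸ H)
  have hinj : Function.Injective (fun c : G ⧸ H => (Quotient.out c : G)) := Quotient.out_injective
  refine ⟨S.image (fun c : G ⧸ H => (Quotient.out c : G)), ?_, ?_⟩
  · rw [Finset.card_image_of_injective _ hinj, hS, AddSubgroup.relIndex,
      AddSubgroup.index]
    refine Nat.card_le_card_of_injective (fun c : H' ⧸ H.addSubgroupOf H' =>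
      (⟨Quotient.liftOn' c (fun x => (QuotientAddGroup.mk (x : G) : G ⧸ H)) ?_, ?_⟩ :
        {x : G ⧸ H // x + x = 0})) ?_
    · intro x y hxy
      rw [QuotientAddGroup.leftRel_apply, AddSubgroup.mem_addSubgroupOf] at hxy
      exact QuotientAddGroup.eq.2 hxy
    · induction c using QuotientAddGroup.induction_on with
      | H x =>
        show (QuotientAddGroup.mk (x : G) : G ⧸ H) + QuotientAddGroup.mk (x : G) = 0
        rw [← QuotientAddGroup.mk_add, QuotientAddGroup.eq_zero_iff]
        exact h2 x x.2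
    · intro c d hcd
      induction c using QuotientAddGroup.induction_on with
      | H x =>
        induction d using QuotientAddGroup.induction_on with
        | H y =>
          have h1 := congrArg Subtype.val hcd
          have h3 : (QuotientAddGroup.mk (x : G) : G ⧸ H) = QuotientAddGroup.mk (y : G) := h1
          rw [QuotientAddGroup.eq] at h3 ⊢
          rw [AddSubgroup.mem_addSubgroupOf]
          exact h3
  · intro x hx y hy hxy
    obtain ⟨a, ha, rfl⟩ := Finset.mem_image.1 hx
    obtain ⟨b, hb, rfl⟩ := Finset.mem_image.1 hy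
    obtain ⟨z, hz⟩ := hxy
    have h2 : ∀ c : G ⧸ H, (QuotientAddGroup.mk (Quotient.out c) : G ⧸ H) = c :=
      fun c => Quotient.out_eq c
    have h3 : b - a = QuotientAddGroup.mk z + QuotientAddGroup.mk z := by
      conv_lhs => rw [← h2 a, ← h2 b]
      rw [← QuotientAddGroup.mk_sub, hz, QuotientAddGroup.mk_add]
    rw [hS' a ha b hb ⟨_, h3⟩]

/-- A subgroup has finite index if the classes up to sign are determined by a finite invariant. -/
theorem fin_index {G T : Type} [AddCommGroup G] [Finite T] (H : AddSubgroup G) (Φ : G → T)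
    (h : ∀ x y, Φ x = Φ y → x - y ∈ H ∨ x + y ∈ H) : H.FiniteIndex := by
  haveI : Finite (G ⧸ H) := by
    let r : T → G := fun t => if ht : ∃ g, Φ g = t then ht.choose else 0
    have hr : ∀ x, x - r (Φ x) ∈ H ∨ x + r (Φ x) ∈ H := by
      intro x
      have ht : ∃ g, Φ g = Φ x := ⟨x, rfl⟩
      have h1 : Φ (r (Φ x)) = Φ x := by
        simp only [r, dif_pos ht]
        exact ht.choose_spec
      exact h _ _ h1.symm
    refine Finite.of_surjective (fun p : T × Bool => (QuotientAddGroup.mk (if p.2 then r p.1 else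
      - r p.1) : G ⧸ H)) ?_
    intro c
    induction c using QuotientAddGroup.induction_on with
    | H x =>
      rcases hr x with h1 | h1
      · refine ⟨(Φ x, true), ?_⟩
        rw [QuotientAddGroup.eq]
        simpa [neg_add_eq_sub] using h1
      · refine ⟨(Φ x, false), ?_⟩
        rw [QuotientAddGroup.eq]
        simpa [add_comm] using h1
  exact AddSubgroup.finiteIndex_of_finite_quotient

end Pool.Agent.H10PR
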