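import Mathlib

/-!
# Squares in complete rings

Project PR (helper68), part TWOI, by helper10.
-/

set_option autoImplicit false
set_option linter.all false

namespace Pool.Agent.H10PR

/-- An element which is not divisible by `p` and a square modulo `4 p` is a square. -/
theorem hensel {B : Type} [CommRing B] [IsDomain B] {p : B} (hp : Prime p)
    (un : ∀ x : B, ¬ p ∣ x → IsUnit x)
    (cpl : ∀ s : ℕ → B, (∀ n, p ^ n ∣ s (n + 1) - s n) → ∃ t, ∀ n, p ^ n ∣ t - s n)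
    (sep : ∀ x : B, (∀ n, p ^ n ∣ x) → x = 0)
    {e : ℕ} (two : ∃ u, ¬ p ∣ u ∧ (2 : B) = p ^ e * u) {α s : B} (hα : ¬ p ∣ α)
    (h : p ^ (2 * e + 1) ∣ α - s ^ 2) : IsSquare α := by
  obtain ⟨u, hu, h2⟩ := two
  obtain ⟨t, ht⟩ := h
  have hs : ¬ p ∣ s := by
    rintro ⟨c, rfl⟩
    apply hα
    refine ⟨p * c ^ 2 + p ^ (2 * e) * t, ?_⟩
    linear_combination ht
  obtain ⟨s', hs'⟩ := un s hs
  obtain ⟨u', hu'⟩ := un u hu
  -- the equation
  obtain ⟨c, hc⟩ : ∃ c : B, c = t * (↑s'⁻¹ * ↑u'⁻¹) ^ 2 := ⟨_, rfl⟩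
  let w : ℕ → B := fun n => Nat.rec 0 (fun _ x => p * c - x ^ 2) n
  have w0 : w 0 = 0 := rfl
  have w1 : ∀ n, w (n + 1) = p * c - w n ^ 2 := fun n => rfl
  have hw : ∀ n, p ∣ w n := by
    intro n
    induction n with
    | zero => rw [w0]; exact dvd_zero _
    | succ n ih =>
      rw [w1]
      exact dvd_sub (dvd_mul_right _ _) (dvd_pow ih two_ne_zero)
  have hd : ∀ n, p ^ (n + 1) ∣ w (n + 1) - w n := by
    intro n
    induction n with
    | zero => rw [w1, w0, zero_add, pow_one]; exact ⟨c, by ring⟩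
    | succ n ih =>
      have e1 : w (n + 1 + 1) - w (n + 1) = (w (n + 1) - w n) * (-(w (n + 1) + w n)) := by
        rw [w1 (n + 1), w1 n]; ring
      rw [e1, pow_succ]
      exact mul_dvd_mul ih ((dvd_neg).2 (dvd_add (hw (n + 1)) (hw n)))
  obtain ⟨z, hz⟩ := cpl w fun n => (pow_dvd_pow p (Nat.le_succ n)).trans (hd n)
  have hz2 : z ^ 2 + z - p * c = 0 := by
    apply sep
    intro n
    have h3 : p ^ n ∣ w (n + 1) - w n := (pow_dvd_pow p (Nat.le_succ n)).trans (hd n)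
    have e1 : z ^ 2 + z - p * c = (z - w n) * (z + w n) + (z - w n) - (w (n + 1) - w n) := by
      rw [w1]; ring
    rw [e1]
    exact dvd_sub (dvd_add (Dvd.dvd.mul_right (hz n) _) (hz n)) h3
  refine ⟨s * (1 + 2 * z), ?_⟩
  have hss : s * (↑s'⁻¹ : B) = 1 := by rw [← hs']; exact Units.mul_inv _
  have huu : u * (↑u'⁻¹ : B) = 1 := by rw [← hu']; exact Units.mul_inv _
  have e2 : s * (1 + 2 * z) * (s * (1 + 2 * z)) = s ^ 2 + s ^ 2 * 4 * (z ^ 2 + z) := by ring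
  have e3 : z ^ 2 + z = p * c := by linear_combination hz2
  have e4 : (4 : B) = (p ^ e * u) ^ 2 := by rw [← h2]; norm_num
  have e5 : s ^ 2 * u ^ 2 * c = t := by
    rw [hc]
    have : s ^ 2 * u ^ 2 * (t * ((↑s'⁻¹ : B) * ↑u'⁻¹) ^ 2) =
      (s * (↑s'⁻¹ : B)) ^ 2 * (u * (↑u'⁻¹ : B)) ^ 2 * t := by ring
    rw [this, hss, huu]; ring
  rw [e2, e3, e4]
  linear_combination ht - p ^ (2 * e + 1) * e5

end Pool.Agent.H10PR
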