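import Pool.Agent.H10PR.Cd
import Pool.Agent.H10PR.Hens

/-!
# Orders in the fraction field of a discrete valuation ring

Project PR (helper68), part TWOI, by helper10.
-/

set_option autoImplicit false
set_option linter.all false

noncomputable section

namespace Pool.Agent.H10PR

variable {O K : Type} [CommRing O] [IsDomain O] [Field K] [Algebra O K] [IsFractionRing O K]
  {π : O} {e : ℕ}

/-- the order of `x` is at least `n` -/
def Ge (K : Type) [Field K] [Algebra O K] (π : O) (n : ℤ) (x : K) : Prop :=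
  ∃ c : O, x = algebraMap O K π ^ n * algebraMap O K c

/-- the order of `x` is `n` -/
def Eq' (K : Type) [Field K] [Algebra O K] (π : O) (n : ℤ) (x : K) : Prop :=
  ∃ c : O, ¬ π ∣ c ∧ x = algebraMap O K π ^ n * algebraMap O K c

namespace CD

variable (h : CD O π e)

include h

theorem π0 : algebraMap O K π ≠ 0 := by
  rw [Ne, FaithfulSMul.algebraMap_eq_zero_iff]
  exact h.pr.ne_zero

theorem sepO (x : O) (hx : ∀ n, π ^ n ∣ x) : x = 0 := by
  by_contra h0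
  obtain ⟨n, y, hy, rfl⟩ := h.fac x h0
  have h1 := hx (n + 1)
  rw [pow_succ] at h1
  exact hy ((mul_dvd_mul_iff_left (pow_ne_zero n h.pr.ne_zero)).1 h1)

theorem hens {α s : O} (hα : ¬ π ∣ α) (hs : π ^ (2 * e + 1) ∣ α - s ^ 2) : IsSquare α :=
  hensel h.pr h.un h.cpl h.sepO h.two hα hs

end CD

theorem Eq'.ge {n : ℤ} {x : K} (h : Eq' K π n x) : Ge K π n x := by
  obtain ⟨c, -, hc⟩ := h
  exact ⟨c, hc⟩

theorem ge_alg (c : O) : Ge K π 0 (algebraMap O K c) := ⟨c, by rw [zpow_zero, one_mul]⟩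

theorem ge_zero (n : ℤ) : Ge K π n 0 := ⟨0, by rw [map_zero, mul_zero]⟩

theorem eq_alg {c : O} (hc : ¬ π ∣ c) : Eq' K π 0 (algebraMap O K c) :=
  ⟨c, hc, by rw [zpow_zero, one_mul]⟩

theorem Ge.int {x : K} (h : Ge K π 0 x) : ∃ c : O, x = algebraMap O K c := by
  obtain ⟨c, hc⟩ := h
  exact ⟨c, by rw [hc, zpow_zero, one_mul]⟩

theorem Ge.add {n : ℤ} {x y : K} (h : Ge K π n x) (h' : Ge K π n y) : Ge K π n (x + y) := by
  obtain ⟨c, rfl⟩ := h
  obtain ⟨d, rfl⟩ := h'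
  exact ⟨c + d, by rw [map_add]; ring⟩

theorem Ge.neg {n : ℤ} {x : K} (h : Ge K π n x) : Ge K π n (-x) := by
  obtain ⟨c, rfl⟩ := h
  exact ⟨-c, by rw [map_neg]; ring⟩

theorem Ge.sub {n : ℤ} {x y : K} (h : Ge K π n x) (h' : Ge K π n y) : Ge K π n (x - y) := by
  rw [sub_eq_add_neg]
  exact h.add h'.neg

theorem Eq'.neg {n : ℤ} {x : K} (h : Eq' K π n x) : Eq' K π n (-x) := by
  obtain ⟨c, hc, rfl⟩ := h
  exact ⟨-c, fun h => hc ((dvd_neg).1 h), by rw [map_neg]; ring⟩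

section

variable (hπ : algebraMap O K π ≠ 0)

include hπ

theorem Ge.mul {m n : ℤ} {x y : K} (h : Ge K π m x) (h' : Ge K π n y) :
    Ge K π (m + n) (x * y) := by
  obtain ⟨c, rfl⟩ := h
  obtain ⟨d, rfl⟩ := h'
  exact ⟨c * d, by rw [map_mul, zpow_add₀ hπ]; ring⟩

theorem Ge.mono {m n : ℤ} (hmn : m ≤ n) {x : K} (h : Ge K π n x) : Ge K π m x := by
  obtain ⟨c, rfl⟩ := h
  refine ⟨π ^ (n - m).toNat * c, ?_⟩
  rw [map_mul, map_pow, ← mul_assoc, ← zpow_natCast, ← zpow_add₀ hπ]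
  congr 2
  omega

theorem Ge.pow {m : ℤ} {x : K} (h : Ge K π m x) (k : ℕ) : Ge K π (k * m) (x ^ k) := by
  obtain ⟨c, rfl⟩ := h
  exact ⟨c ^ k, by rw [mul_pow, map_pow, ← zpow_natCast, ← zpow_mul, mul_comm m]⟩

theorem Eq'.add {m n : ℤ} (hmn : m < n) {x y : K} (h : Eq' K π m x) (h' : Ge K π n y) :
    Eq' K π m (x + y) := by
  obtain ⟨d, hd⟩ := Ge.mono hπ (show m + 1 ≤ n by omega) h'
  obtain ⟨c, hc, rfl⟩ := h
  refine ⟨c + π * d, fun h => hc ((dvd_add_left (dvd_mul_right π d)).1 h), ?_⟩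
  rw [hd, map_add, map_mul, zpow_add₀ hπ, zpow_one]
  ring

end

namespace CD

variable (h : CD O π e)

include h

theorem mulE {m n : ℤ} {x y : K} (h1 : Eq' K π m x) (h2 : Eq' K π n y) :
    Eq' K π (m + n) (x * y) := by
  obtain ⟨c, hc, rfl⟩ := h1
  obtain ⟨d, hd, rfl⟩ := h2
  refine ⟨c * d, fun h' => (h.pr.dvd_or_dvd h').elim hc hd, ?_⟩
  rw [map_mul, zpow_add₀ h.π0]; ring

theorem powE {m : ℤ} {x : K} (h1 : Eq' K π m x) (k : ℕ) : Eq' K π (k * m) (x ^ k) := by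
  obtain ⟨c, hc, rfl⟩ := h1
  refine ⟨c ^ k, fun h' => hc (h.pr.dvd_of_dvd_pow h'), ?_⟩
  rw [map_pow, mul_pow, ← zpow_natCast, ← zpow_mul, mul_comm m]

theorem invE {m : ℤ} {x : K} (h1 : Eq' K π m x) : Eq' K π (-m) x⁻¹ := by
  obtain ⟨c, hc, rfl⟩ := h1
  obtain ⟨d, rfl⟩ := h.un c hc
  refine ⟨(↑d⁻¹ : O), ?_, ?_⟩
  · intro h'
    exact h.pr.not_unit (isUnit_of_dvd_unit h' (Units.isUnit _))
  · have h2 : algebraMap O K (d : O) * algebraMap O K (↑d⁻¹ : O) = 1 := by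
      rw [← map_mul, Units.mul_inv, map_one]
    rw [mul_inv, ← zpow_neg]
    congr 1
    exact inv_eq_of_mul_eq_one_right h2

theorem divE {m n : ℤ} {x y : K} (h1 : Eq' K π m x) (h2 : Eq' K π n y) :
    Eq' K π (m - n) (x / y) := by
  rw [div_eq_mul_inv, sub_eq_add_neg]
  exact h.mulE h1 (h.invE h2)

theorem ne0 {m : ℤ} {x : K} (h1 : Eq' K π m x) : x ≠ 0 := by
  obtain ⟨c, hc, rfl⟩ := h1
  refine mul_ne_zero (zpow_ne_zero _ h.π0) ?_
  rw [Ne, FaithfulSMul.algebraMap_eq_zero_iff]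
  rintro rfl
  exact hc (dvd_zero _)

theorem leE {m n : ℤ} {x : K} (h1 : Eq' K π m x) (h2 : Ge K π n x) : n ≤ m := by
  by_contra hlt
  rw [not_le] at hlt
  obtain ⟨c, hc, rfl⟩ := h1
  obtain ⟨d, hd⟩ := Ge.mono h.π0 (show m + 1 ≤ n by omega) h2
  rw [zpow_add₀ h.π0, zpow_one, mul_assoc] at hd
  have h3 := mul_left_cancel₀ (zpow_ne_zero m h.π0) hd
  rw [← map_mul] at h3
  exact hc ⟨d, FaithfulSMul.algebraMap_injective O K h3⟩

theorem eqE {m n : ℤ} {x : K} (h1 : Eq' K π m x) (h2 : Eq' K π n x) : m = n :=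
  le_antisymm (h.leE h2 h1.ge) (h.leE h1 h2.ge)

theorem exE {x : K} (hx : x ≠ 0) : ∃ n, Eq' K π n x := by
  obtain ⟨a, b, hb, rfl⟩ := IsFractionRing.div_surjective (A := O) x
  have hb0 : b ≠ 0 := nonZeroDivisors.ne_zero hb
  have ha0 : a ≠ 0 := by
    rintro rfl
    exact hx (by rw [map_zero, zero_div])
  obtain ⟨n, c, hc, rfl⟩ := h.fac a ha0
  obtain ⟨m, d, hd, rfl⟩ := h.fac b hb0
  have h1 : Eq' K π (n : ℤ) (algebraMap O K (π ^ n * c)) := ⟨c, hc, by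
    rw [map_mul, map_pow, zpow_natCast]⟩
  have h2 : Eq' K π (m : ℤ) (algebraMap O K (π ^ m * d)) := ⟨d, hd, by
    rw [map_mul, map_pow, zpow_natCast]⟩
  exact ⟨_, h.divE h1 h2⟩

/-- either the order is at least `n` or it is smaller -/
theorem cases (n : ℤ) (x : K) : Ge K π n x ∨ ∃ m, m < n ∧ Eq' K π m x := by
  by_cases hx : x = 0
  · exact Or.inl (hx ▸ ge_zero n)
  · obtain ⟨m, hm⟩ := h.exE hx
    rcases lt_or_ge m n with h1 | h1
    · exact Or.inr ⟨m, h1, hm⟩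
    · exact Or.inl (Ge.mono h.π0 h1 hm.ge)

theorem twoE : Eq' K π e (2 : K) := by
  obtain ⟨u, hu, h2⟩ := h.two
  refine ⟨u, hu, ?_⟩
  rw [zpow_natCast, ← map_pow, ← map_mul, ← h2, map_ofNat]

end CD

end Pool.Agent.H10PR
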